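import Mathlib

/-!
# Hodge structures in coordinates and families of classes on the powers

`V` is a rational Hodge structure with the basis `ι`, so that the tensor power `V^(⊗ n)` is the
space of the arrays `(Fin n → ι) → ℚ`.
-/

namespace Pool.Agent.N174.BPN

open Matrix ComplexConjugate

variable {ι : Type} [Fintype ι] [DecidableEq ι]

/-- A rational matrix as a complex matrix. -/
def cx {m n : Type*} (M : Matrix m n ℚ) : Matrix m n ℂ := M.map fun x : ℚ => (x : ℂ)

/-- A rational Hodge structure (a direct sum of pure ones) on the space with the basis `ι`: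
`P k` is the projector to the sum of the spaces of the types `(p, q)` with `p - q = k`, and
`|p - q| ≤ w` for all types which occur. -/
structure HodgeStr (ι : Type) [Fintype ι] [DecidableEq ι] where
  /-- the bound of the types -/
  w : ℕ
  /-- the projectors -/
  P : ℤ → Matrix ι ι ℂ
  sum_P : ∑ k ∈ Finset.Icc (-w : ℤ) w, P k = 1
  mul_P : ∀ k ∈ Finset.Icc (-w : ℤ) w, ∀ l ∈ Finset.Icc (-w : ℤ) w,
    P k * P l = if k = l then P k else 0
  conj_P : ∀ k ∈ Finset.Icc (-w : ℤ) w, (P k).map conj = P (-k)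

namespace HodgeStr

variable (V : HodgeStr ι)

/-- The action of `t`, the multiplication by `t ^ (p - q)` on the classes of type `(p, q)`. -/
noncomputable def rot (t : ℂ) : Matrix ι ι ℂ := ∑ k ∈ Finset.Icc (-V.w : ℤ) V.w, t ^ k • V.P k

/-- The (sums of) Hodge classes in the tensor power of `V` with the set of factors `κ`: the
rational arrays which are fixed by the action of all `t`. -/
noncomputable def Hdg (κ : Type) [Fintype κ] [DecidableEq κ] : Submodule ℚ ((κ → ι) → ℚ) where
  carrier := {a | ∀ t : ℂ, t ≠ 0 → ∀ u : κ → ι,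
    ∑ v : κ → ι, (∏ k, V.rot t (u k) (v k)) * (a v : ℂ) = a u}
  add_mem' {a b} ha hb t ht u := by
    have h1 := ha t ht u
    have h2 := hb t ht u
    simp only [Pi.add_apply, Rat.cast_add, mul_add, Finset.sum_add_distrib]
    rw [h1, h2]
  zero_mem' t ht u := by simp
  smul_mem' c a ha t ht u := by
    have h1 := ha t ht u
    simp only [Pi.smul_apply, smul_eq_mul, Rat.cast_mul]
    rw [← h1, Finset.mul_sum]
    exact Finset.sum_congr rfl fun v _ => by ring

/-- The (sums of) Hodge classes in `V` itself. -/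
noncomputable def hdg : Submodule ℚ (ι → ℚ) where
  carrier := {v | ∀ t : ℂ, t ≠ 0 → V.rot t *ᵥ (fun i => (v i : ℂ)) = fun i => (v i : ℂ)}
  add_mem' {a b} ha hb t ht := by
    have h : (fun i => (((a + b) i : ℚ) : ℂ)) = (fun i => (a i : ℂ)) + fun i => (b i : ℂ) := by
      funext i; simp
    rw [h, Matrix.mulVec_add, ha t ht, hb t ht]
  zero_mem' t _ := by
    have h : (fun i => (((0 : ι → ℚ) i : ℚ) : ℂ)) = 0 := by funext i; simp
    rw [h, Matrix.mulVec_zero]
  smul_mem' c a ha t ht := by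
    have h : (fun i => (((c • a) i : ℚ) : ℂ)) = (c : ℂ) • fun i => (a i : ℂ) := by
      funext i; simp
    rw [h, Matrix.mulVec_smul, ha t ht]

/-- The transcendental rank: the dimension of `V` minus the number of the linearly independent
Hodge classes in `V`. -/
noncomputable def transRank : ℕ := Module.finrank ℚ ((ι → ℚ) ⧸ V.hdg)

/-- The rational form `ψ` is a polarisation: it pairs the types `(p, q)` and `(q, p)`, and
`i ^ (p - q) ψ(x, conj x) > 0` for the vectors `x ≠ 0` of the types `(p, q)`. -/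
structure IsPolarisation (ψ : Matrix ι ι ℚ) : Prop where
  orth : ∀ k ∈ Finset.Icc (-V.w : ℤ) V.w, (V.P k)ᵀ * cx ψ = cx ψ * V.P (-k)
  pos : ∀ k ∈ Finset.Icc (-V.w : ℤ) V.w, ∀ x : ι → ℂ, V.P k *ᵥ x = x → x ≠ 0 →
    ∃ r : ℝ, 0 < r ∧ Complex.I ^ k * (x ⬝ᵥ (cx ψ *ᵥ fun i => conj (x i))) = r

/-- Endomorphisms of the Hodge structure. -/
def IsEndo (x : Matrix ι ι ℚ) : Prop := ∀ t : ℂ, t ≠ 0 → V.rot t * cx x = cx x * V.rot t

/-- The centre of the algebra of the endomorphisms of the Hodge structure. -/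
def IsCentral (x : Matrix ι ι ℚ) : Prop := V.IsEndo x ∧ ∀ y, V.IsEndo y → x * y = y * x

/-- The centre consists of self-adjoint endomorphisms (it is a product of totally real fields). -/
def SelfAdjointCentre (ψ : Matrix ι ι ℚ) : Prop := ∀ x, V.IsCentral x → xᵀ * ψ = ψ * x

/-- `∑ (p - q) Tr (x | V^(p, q)) = 0` for the central endomorphisms `x` (the Hodge group is
semisimple). -/
def TraceFreeCentre : Prop := ∀ x, V.IsCentral x →
  ∑ k ∈ Finset.Icc (-V.w : ℤ) V.w, (k : ℂ) * (cx x * V.P k).trace = 0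

/-- `N` is the exponent of the bounded power theorem. -/
def IsExponent (ψ : Matrix ι ι ℚ) (N : ℕ) : Prop :=
  (V.SelfAdjointCentre ψ ∧ N = max 4 V.transRank) ∨
    (V.TraceFreeCentre ∧ N = max 4 (V.transRank ^ 2 / 4)) ∨
      N = max 4 ((max 1 V.w * V.transRank) ^ V.transRank)

end HodgeStr

/-- The product of two arrays. -/
def ten {n m : ℕ} (a : (Fin n → ι) → ℚ) (b : (Fin m → ι) → ℚ) : (Fin (n + m) → ι) → ℚ := fun u =>
  a (fun i => u (Fin.castAdd m i)) * b fun i => u (Fin.natAdd n i)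

/-- The contraction of the last two factors with a form. -/
def con (Q : ι → ι → ℚ) {n : ℕ} (a : (Fin (n + 2) → ι) → ℚ) : (Fin n → ι) → ℚ := fun u =>
  ∑ x, ∑ y, Q x y * a (Fin.append u ![x, y])

/-- A family of spaces of Hodge classes in the tensor powers `V^(⊗ n)` which is stable under
products, permutations of the factors and contractions with the polarisation `ψ`. -/
structure IsTensorFamily (V : HodgeStr ι) (ψ : Matrix ι ι ℚ)
    (C : ∀ n : ℕ, Submodule ℚ ((Fin n → ι) → ℚ)) : Prop where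
  hodge : ∀ n, C n ≤ V.Hdg (Fin n)
  one : C 0 = ⊤
  tens : ∀ (n m : ℕ) (a : (Fin n → ι) → ℚ) (b : (Fin m → ι) → ℚ), a ∈ C n → b ∈ C m →
    ten a b ∈ C (n + m)
  perm : ∀ (n : ℕ) (σ : Equiv.Perm (Fin n)) (a : (Fin n → ι) → ℚ), a ∈ C n →
    (fun u => a (u ∘ σ)) ∈ C n
  contr : ∀ (n : ℕ) (a : (Fin (n + 2) → ι) → ℚ), a ∈ C (n + 2) → con (fun x y => ψ x y) a ∈ C n

end Pool.Agent.N174.BPN
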