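import Pool.Agent.N174.BPN.DefsNC

/-!
# Morphisms between the tensor powers
-/

namespace Pool.Agent.N174.BPN

open Matrix

variable {ι : Type} [Fintype ι] [DecidableEq ι]

/-- Morphisms of Hodge structures `V^(⊗ a) ⟶ V^(⊗ b)` (up to Tate twists): they commute with the
action of all `t`. -/
def IsHodgeMor (V : HodgeStr ι) {a b : ℕ} (f : Matrix (Fin b → ι) (Fin a → ι) ℚ) : Prop :=
  ∀ t : ℂ, t ≠ 0 → ∀ v u, ∑ v', (∏ k, V.rot t (v k) (v' k)) * (f v' u : ℂ) =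
    ∑ u', (f v u' : ℂ) * ∏ k, V.rot t (u' k) (u k)

/-- Morphisms `M^(⊗ a) ⟶ M^(⊗ b)` (up to Tate twists), given by a class `c` in `M^(⊗ (b + a))`
and the identification of `M` with its dual by the polarisation `ψ`. -/
def IsMotMor (ψ : Matrix ι ι ℚ) (C : ∀ n : ℕ, Submodule ℚ ((Fin n → ι) → ℚ)) {a b : ℕ}
    (f : Matrix (Fin b → ι) (Fin a → ι) ℚ) : Prop :=
  ∃ c ∈ C (b + a), ∀ v u, f v u = ∑ u', c (Fin.append v u') * ∏ k, ψ (u' k) (u k)

end Pool.Agent.N174.BPN
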