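import Pool.Agent.N174.BPN.Defs

/-!
# The powers of an admissible subcategory
-/

namespace Pool.Agent.N174.BPN

open Matrix

variable {ι : Type} [Fintype ι] [DecidableEq ι]

/-- The Hodge structure `V = (K^top_0(𝒞) ⊕ K^top_1(𝒞)) ⊗ ℚ` of an admissible subcategory `𝒞` with
the Euler form `χ`. The basis `ι` consists of elements of `K^top_0(𝒞)` (`p i = 0`) and of
`K^top_1(𝒞)` (`p i = 1`). The Euler form is perfect and a morphism of Hodge structures. -/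
structure IsNC (V : HodgeStr ι) (p : ι → Fin 2) (χ : Matrix ι ι ℚ) : Prop where
  par_P : ∀ k i j, p i ≠ p j → V.P k i j = 0
  par_χ : ∀ i j, p i ≠ p j → χ i j = 0
  perfect : χ.det ≠ 0
  hodge : ∀ t : ℂ, t ≠ 0 → (V.rot t)ᵀ * cx χ * V.rot t = cx χ

/-- The Euler form `χ(f, x ⊗ y)` of the category `𝒞 ⊠ 𝒞`. -/
def eul (p : ι → Fin 2) (χ : Matrix ι ι ℚ) (f : (Fin 2 → ι) → ℚ) (x y : ι) : ℚ :=
  ∑ x', ∑ y', f ![x', y'] * (-1) ^ ((p y' : ℕ) * (p x : ℕ)) * χ x' x * χ y' y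

/-- `C n` is the space spanned by the classes of the objects of `𝒞 ⊠ ... ⊠ 𝒞` (`n` factors) in
`V^(⊗ n)`. The properties which are used:
* `hodge`: the classes of the objects are Hodge classes;
* `one`: for `n = 0` the category is `D(pt)`;
* `box`: the product of objects;
* `swap`: the permutation of two neighbouring factors (with the rule of signs);
* `hom`: for an object `F` of `𝒞 ⊠ 𝒞`, the functor `RHom(F, -)` in the last two factors. -/
structure IsObjectClasses (V : HodgeStr ι) (p : ι → Fin 2) (χ : Matrix ι ι ℚ)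
    (C : ∀ n : ℕ, Submodule ℚ ((Fin n → ι) → ℚ)) : Prop where
  hodge : ∀ n, C n ≤ V.Hdg (Fin n)
  one : C 0 = ⊤
  box : ∀ (n m : ℕ) (a : (Fin n → ι) → ℚ) (b : (Fin m → ι) → ℚ), a ∈ C n → b ∈ C m →
    ten a b ∈ C (n + m)
  swap : ∀ (n : ℕ) (i : Fin n) (a : (Fin (n + 1) → ι) → ℚ), a ∈ C (n + 1) →
    (fun u => (-1) ^ ((p (u i.castSucc) : ℕ) * (p (u i.succ) : ℕ)) *
      a (u ∘ Equiv.swap i.castSucc i.succ)) ∈ C (n + 1)
  hom : ∀ (n : ℕ) (f : (Fin 2 → ι) → ℚ) (a : (Fin (n + 2) → ι) → ℚ), f ∈ C 2 → a ∈ C (n + 2) →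
    con (eul p χ f) a ∈ C n

/-- The noncommutative Hodge conjecture for the power `𝒞 ⊠ ... ⊠ 𝒞` with `n` factors. -/
def NCHodge (V : HodgeStr ι) (C : ∀ n : ℕ, Submodule ℚ ((Fin n → ι) → ℚ)) (n : ℕ) : Prop :=
  V.Hdg (Fin n) ≤ C n

/-- The Hodge structure `W` (with the space `D` of the classes of objects) is a direct summand of a
finite sum of powers: `α i` maps Hodge classes to Hodge classes, `β i` maps classes of objects to
classes of objects. -/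
def FromPowers (V : HodgeStr ι) (C : ∀ n : ℕ, Submodule ℚ ((Fin n → ι) → ℚ)) {ι' : Type}
    [Fintype ι'] [DecidableEq ι'] (W : HodgeStr ι') (D : Submodule ℚ (ι' → ℚ)) : Prop :=
  ∃ (m : ℕ) (n : Fin m → ℕ) (α : ∀ i, (ι' → ℚ) →ₗ[ℚ] ((Fin (n i) → ι) → ℚ))
    (β : ∀ i, ((Fin (n i) → ι) → ℚ) →ₗ[ℚ] (ι' → ℚ)),
    (∀ i, ∀ x ∈ W.hdg, α i x ∈ V.Hdg (Fin (n i))) ∧ (∀ i, ∀ y ∈ C (n i), β i y ∈ D) ∧
      ∀ x, ∑ i, β i (α i x) = x

end Pool.Agent.N174.BPN
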