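import Pool.Agent.N174.BPN.Nc2

/-!
# The bounded power theorem for admissible subcategories
-/

namespace Pool.Agent.N174.BPN

open Matrix

variable {ι : Type} [Fintype ι] [DecidableEq ι] {V : HodgeStr ι} {ψ : Matrix ι ι ℚ}
  {C : ∀ n : ℕ, Submodule ℚ ((Fin n → ι) → ℚ)}

/-- Direct summands of powers. -/
theorem fromPowers {ι' : Type} [Fintype ι'] [DecidableEq ι'] {W : HodgeStr ι'}
    {D : Submodule ℚ (ι' → ℚ)} (h : FromPowers V C W D) (hall : ∀ n, V.Hdg (Fin n) ≤ C n) :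
    W.hdg ≤ D := by
  obtain ⟨m, n, α, β, h1, h2, h3⟩ := h
  intro x hx
  rw [← h3 x]
  exact Submodule.sum_mem _ fun i _ => h2 i _ (hall _ (h1 i x hx))

/-- The theorem for noncommutative Hodge structures. -/
theorem nc_core {p : ι → Fin 2} {χ : Matrix ι ι ℚ} (hV : IsNC V p χ)
    (hC : IsObjectClasses V p χ C) (hψ : V.IsPolarisation ψ)
    (hψp : ∀ i j, p i ≠ p j → ψ i j = 0) {N : ℕ} (hN : V.IsExponent ψ N)
    (h : ∀ n ≤ N, NCHodge V C n) (n : ℕ) : NCHodge V C n := by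
  have h4 : 4 ≤ N := by rcases hN with ⟨_, h⟩ | ⟨_, h⟩ | h <;> omega
  exact core hψ (tensorFamily hV hC (h 2 (by omega)) hψ hψp) hN h n

end Pool.Agent.N174.BPN
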