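import Pool.Agent.N174.BPN.Ht

/-!
# The family of the arrays on the Hodge structure with the unit added
-/

set_option linter.unusedSectionVars false
set_option linter.unusedVariables false

namespace Pool.Agent.N174.BPN

open Matrix ComplexConjugate Pool.Agent.N996.BP

variable {ι : Type} [Fintype ι] [DecidableEq ι] {V : HodgeStr ι} {ψ : Matrix ι ι ℚ}
  {C : ∀ n : ℕ, Submodule ℚ ((Fin n → ι) → ℚ)}

lemma mem_Hdg {κ : Type} [Fintype κ] [DecidableEq κ] {a : (κ → ι) → ℚ} :
    a ∈ V.Hdg κ ↔ ∀ t : ℂ, t ≠ 0 → kp κ (V.rot t) *ᵥ ca a = ca a := by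
  constructor
  · intro h t ht
    funext u
    rw [Matrix.mulVec, dotProduct]
    exact h t ht u
  · intro h t ht u
    have h1 := congrFun (h t ht) u
    rw [Matrix.mulVec, dotProduct] at h1
    exact h1

lemma Hdg_rei {κ l : Type} [Fintype κ] [DecidableEq κ] [Fintype l] [DecidableEq l] (e : κ ≃ l)
    {a : (κ → ι) → ℚ} (h : rei e a ∈ V.Hdg l) : a ∈ V.Hdg κ := by
  rw [mem_Hdg] at h ⊢
  intro t ht
  have h1 := h t ht
  have h2 : ca (rei e a) = rei e (ca a) := rfl
  rw [h2, kp_rei] at h1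
  funext u
  have h3 := congrFun h1 (u ∘ e.symm)
  rw [rei, rei] at h3
  have h4 : (u ∘ e.symm) ∘ e = u := by funext k; simp
  rwa [h4] at h3

lemma Hdg_rei' {κ l : Type} [Fintype κ] [DecidableEq κ] [Fintype l] [DecidableEq l] (e : κ ≃ l)
    {a : (κ → ι) → ℚ} (h : a ∈ V.Hdg κ) : rei e a ∈ V.Hdg l := by
  refine Hdg_rei e.symm ?_
  have h1 : rei e.symm (rei e a) = a := by
    funext u
    change a ((u ∘ e.symm) ∘ e) = a u
    congr 1
    funext k; simp
  rwa [h1]

/-- The arrays with general sets of factors. -/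
def CQ (C : ∀ n : ℕ, Submodule ℚ ((Fin n → ι) → ℚ)) (κ : Type) : Submodule ℚ ((κ → ι) → ℚ) where
  carrier := {a | ∀ (n : ℕ) (e : κ ≃ Fin n), rei e a ∈ C n}
  add_mem' {a b} ha hb n e := Submodule.add_mem _ (ha n e) (hb n e)
  zero_mem' n e := Submodule.zero_mem _
  smul_mem' c a ha n e := Submodule.smul_mem _ c (ha n e)

lemma exists_fin (κ : Type) [Finite κ] : ∃ n, Nonempty (κ ≃ Fin n) :=
  ⟨Nat.card κ, ⟨Finite.equivFin κ⟩⟩

lemma CQ_rei {κ l : Type} (e : κ ≃ l) {a : (κ → ι) → ℚ} (ha : a ∈ CQ C κ) : rei e a ∈ CQ C l :=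
  fun n e' => ha n (e.trans e')

variable (hC : IsTensorFamily V ψ C)

include hC in
lemma CQ_of {κ : Type} {a : (κ → ι) → ℚ} {n : ℕ} (e : κ ≃ Fin n) (h : rei e a ∈ C n) :
    a ∈ CQ C κ := by
  intro m e'
  have hmn : m = n := by
    have := Fintype.card_congr (e'.symm.trans e)
    simpa using this
  subst hmn
  have h1 := hC.perm _ (e.symm.trans e') _ h
  convert h1 using 1
  funext u
  change a (u ∘ e') = a ((u ∘ (e.symm.trans e')) ∘ e)
  congr 1
  funext k
  simp

include hC in
lemma CQ_tens {κ l : Type} [Finite κ] [Finite l] {a : (κ → ι) → ℚ} {b : (l → ι) → ℚ}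
    (ha : a ∈ CQ C κ) (hb : b ∈ CQ C l) : tens a b ∈ CQ C (κ ⊕ l) := by
  obtain ⟨n, ⟨e⟩⟩ := exists_fin κ
  obtain ⟨m, ⟨f⟩⟩ := exists_fin l
  have h1 := hC.tens n m _ _ (ha n e) (hb m f)
  refine CQ_of hC ((Equiv.sumCongr e f).trans finSumFinEquiv) ?_
  convert h1 using 1
  funext u
  rw [rei, tens, ten, rei, rei]
  congr 1

include hC in
lemma CQ_contr {κ : Type} [Finite κ] {a : (κ ⊕ (Unit ⊕ Unit) → ι) → ℚ}
    (ha : a ∈ CQ C (κ ⊕ (Unit ⊕ Unit))) :
    (fun u : κ → ι => ∑ x, ∑ y, ψ x y * a (Sum.elim u (Sum.elim (fun _ => x) fun _ => y))) ∈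
      CQ C κ := by
  obtain ⟨n, ⟨e⟩⟩ := exists_fin κ
  let f : Unit ⊕ Unit ≃ Fin 2 :=
    { toFun := Sum.elim (fun _ => 0) fun _ => 1
      invFun := fun i => if i = 0 then Sum.inl () else Sum.inr ()
      left_inv := by rintro (x | x) <;> simp
      right_inv := by intro i; fin_cases i <;> simp }
  have h1 := hC.contr n _ (ha (n + 2) ((Equiv.sumCongr e f).trans finSumFinEquiv))
  refine CQ_of hC e ?_
  convert h1 using 1
  funext u
  rw [rei, con]
  refine Finset.sum_congr rfl fun x _ => Finset.sum_congr rfl fun y _ => ?_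
  rw [rei]
  congr 2
  funext k
  rcases k with k | k | k
  · change u (e k) = Fin.append u ![x, y] (Fin.castAdd 2 (e k))
    rw [Fin.append_left]
  · change x = Fin.append u ![x, y] (Fin.natAdd n 0)
    rw [Fin.append_right]
    rfl
  · change y = Fin.append u ![x, y] (Fin.natAdd n 1)
    rw [Fin.append_right]
    rfl

include hC in
lemma CQ_le {κ : Type} [Fintype κ] [DecidableEq κ] : CQ C κ ≤ V.Hdg κ := by
  intro a ha
  obtain ⟨n, ⟨e⟩⟩ := exists_fin κ
  exact Hdg_rei e (hC.hodge n (ha n e))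

lemma CQ_small {N : ℕ} (h : ∀ n ≤ N, V.Hdg (Fin n) ≤ C n) {κ : Type} [Fintype κ] [DecidableEq κ]
    (hκ : Fintype.card κ ≤ N) : V.Hdg κ ≤ CQ C κ := by
  intro a ha n e
  have h1 : Fintype.card κ = n := by simpa using Fintype.card_congr e
  exact h n (by omega) (Hdg_rei' e ha)

/-- The family on the Hodge structure with the unit added. -/
noncomputable def BO (C : ∀ n : ℕ, Submodule ℚ ((Fin n → ι) → ℚ)) (l : Type) :
    Submodule ℚ ((l → Option ι) → ℚ) where
  carrier := {a | ∀ (κ : Type) (j : κ → l), Function.Injective j → rs j a ∈ CQ C κ}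
  add_mem' {a b} ha hb κ j hj := Submodule.add_mem _ (ha κ j hj) (hb κ j hj)
  zero_mem' κ j _ := Submodule.zero_mem (CQ C κ)
  smul_mem' c a ha κ j hj := Submodule.smul_mem _ c (ha κ j hj)

lemma BO_rei {l l' : Type} (e : l ≃ l') {a : (l → Option ι) → ℚ} (ha : a ∈ BO C l) :
    rei e a ∈ BO C l' := by
  intro κ j hj
  have h1 := ha κ (e.symm ∘ j) (e.symm.injective.comp hj)
  convert h1 using 1
  funext u
  change a (xt j u ∘ e) = a (xt (e.symm ∘ j) u)
  congr 1
  symm
  refine xt_eq (e.symm.injective.comp hj) (fun k => ?_) fun m hm => ?_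
  · change xt j u (e (e.symm (j k))) = _
    rw [e.apply_symm_apply, xt_apply hj]
  · change xt j u (e m) = none
    refine xt_apply' u fun k hk => hm k ?_
    change e.symm (j k) = m
    rw [hk, e.symm_apply_apply]

include hC in
lemma BO_tens {l m : Type} [Finite l] [Finite m] {a : (l → Option ι) → ℚ}
    {b : (m → Option ι) → ℚ} (ha : a ∈ BO C l) (hb : b ∈ BO C m) :
    tens a b ∈ BO C (l ⊕ m) := by
  classical
  intro κ j hj
  have hfin : Finite κ := Finite.of_injective j hj
  let κ₁ := {k : κ // (j k).isLeft = true}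
  let κ₂ := {k : κ // ¬ (j k).isLeft = true}
  let j₁ : κ₁ → l := fun k => (j k.1).getLeft k.2
  let j₂ : κ₂ → m := fun k => (j k.1).getRight (by
    have := k.2; rwa [Sum.not_isLeft] at this)
  have hj₁ : ∀ k : κ₁, Sum.inl (j₁ k) = j k.1 := fun k => by simp [j₁]
  have hj₂ : ∀ k : κ₂, Sum.inr (j₂ k) = j k.1 := fun k => by simp [j₂]
  have hi₁ : Function.Injective j₁ := fun k k' h => Subtype.ext (hj (by rw [← hj₁, ← hj₁, h]))
  have hi₂ : Function.Injective j₂ := fun k k' h => Subtype.ext (hj (by rw [← hj₂, ← hj₂, h]))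
  have h1 := CQ_tens hC (ha κ₁ j₁ hi₁) (hb κ₂ j₂ hi₂)
  have h2 := CQ_rei (Equiv.sumCompl fun k : κ => (j k).isLeft = true) h1
  convert h2 using 1
  funext u
  rw [rs, tens, rei, tens, rs, rs]
  congr 2
  · symm
    refine xt_eq hi₁ (fun k => ?_) fun p hp => ?_
    · change xt j u (Sum.inl (j₁ k)) = _
      rw [hj₁, xt_apply hj]
      rfl
    · change xt j u (Sum.inl p) = none
      refine xt_apply' u fun k hk => hp ⟨k, by rw [hk]; rfl⟩ ?_
      exact Sum.inl_injective ((hj₁ _).trans hk)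
  · symm
    refine xt_eq hi₂ (fun k => ?_) fun p hp => ?_
    · change xt j u (Sum.inr (j₂ k)) = _
      rw [hj₂, xt_apply hj]
      rfl
    · change xt j u (Sum.inr p) = none
      refine xt_apply' u fun k hk => hp ⟨k, by rw [hk]; simp⟩ ?_
      exact Sum.inr_injective ((hj₂ _).trans hk)

lemma rs_ca {κ l : Type} (j : κ → l) (a : (l → Option ι) → ℚ) : rs j (ca a) = ca (rs j a) := rfl

include hC in
/-- Contractions. -/
lemma BO_ctr (n : ℕ) {a : (Fin (n + 2 + 1) → Option ι) → ℚ} (ha : a ∈ BO C (Fin (n + 2 + 1))) :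
    ctr (ob 1 ψᵀ) a ∈ BO C (Fin (n + 1)) := by
  classical
  intro κ j hj
  have hfin : Finite κ := Finite.of_injective j hj
  -- the two embeddings
  let j₀ : κ → Fin (n + 2 + 1) := fun k => (j k).castSucc.castSucc
  have hj₀ : Function.Injective j₀ := fun k k' h =>
    hj (Fin.castSucc_injective _ (Fin.castSucc_injective _ h))
  let j₂ : κ ⊕ (Unit ⊕ Unit) → Fin (n + 2 + 1) :=
    Sum.elim j₀ (Sum.elim (fun _ => Fin.last (n + 2)) fun _ => (Fin.last (n + 1)).castSucc)
  have hlast : ∀ k, j₀ k ≠ Fin.last (n + 2) := fun k h => (Fin.castSucc_lt_last _).ne h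
  have hlast' : ∀ k, j₀ k ≠ (Fin.last (n + 1)).castSucc := fun k h =>
    (Fin.castSucc_lt_last (j k)).ne (Fin.castSucc_injective _ h)
  have hll : (Fin.last (n + 1)).castSucc ≠ Fin.last (n + 2) := (Fin.castSucc_lt_last _).ne
  have hj₂ : Function.Injective j₂ := by
    rintro (k | k | k) (k' | k' | k') h
    · exact congrArg _ (hj₀ h)
    · exact absurd h (hlast k)
    · exact absurd h (hlast' k)
    · exact absurd h.symm (hlast k')
    · rfl
    · exact absurd h.symm hll
    · exact absurd h.symm (hlast' k')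
    · exact absurd h hll
    · rfl
  have h0 := ha κ j₀ hj₀
  have h1 := CQ_contr hC (ha _ j₂ hj₂)
  have h2 := Submodule.add_mem _ h0 h1
  convert h2 using 1
  funext u
  have e0 : sn (xt j u) none none = xt j₀ u := by
    symm
    refine xt_eq hj₀ (fun k => ?_) fun m hm => ?_
    · change sn (xt j u) none none (j k).castSucc.castSucc = _
      rw [sn, Fin.snoc_castSucc, Fin.snoc_castSucc, xt_apply hj]
    · induction m using Fin.lastCases with
      | last => rw [sn, Fin.snoc_last]
      | cast m =>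
        induction m using Fin.lastCases with
        | last => rw [sn, Fin.snoc_castSucc, Fin.snoc_last]
        | cast m =>
          rw [sn, Fin.snoc_castSucc, Fin.snoc_castSucc]
          exact xt_apply' u fun k hk => hm k (by change (j k).castSucc.castSucc = _; rw [hk])
  have e2 : ∀ x y : ι, sn (xt j u) (some x) (some y) =
      xt j₂ (Sum.elim u (Sum.elim (fun _ => y) fun _ => x)) := by
    intro x y
    symm
    refine xt_eq hj₂ (fun k => ?_) fun m hm => ?_
    · rcases k with k | k | k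
      · change sn (xt j u) (some x) (some y) (j k).castSucc.castSucc = _
        rw [sn, Fin.snoc_castSucc, Fin.snoc_castSucc, xt_apply hj]
        rfl
      · change sn (xt j u) (some x) (some y) (Fin.last (n + 2)) = _
        rw [sn, Fin.snoc_last]
        rfl
      · change sn (xt j u) (some x) (some y) (Fin.last (n + 1)).castSucc = _
        rw [sn, Fin.snoc_castSucc, Fin.snoc_last]
        rfl
    · induction m using Fin.lastCases with
      | last => exact absurd rfl (hm (Sum.inr (Sum.inl ())))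
      | cast m =>
        induction m using Fin.lastCases with
        | last => exact absurd rfl (hm (Sum.inr (Sum.inr ())))
        | cast m =>
          rw [sn, Fin.snoc_castSucc, Fin.snoc_castSucc]
          exact xt_apply' u fun k hk => hm (Sum.inl k) (by
            change (j k).castSucc.castSucc = _; rw [hk])
  rw [Pi.add_apply, rs, ctr, Fintype.sum_option, Fintype.sum_option, ob_nn, one_mul, e0]
  congr 1
  · simp only [ob_ns, zero_mul, Finset.sum_const_zero, add_zero]
    rfl
  · simp only [Fintype.sum_option, ob_sn, zero_mul, zero_add, ob_ss]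
    rw [Finset.sum_comm]
    refine Finset.sum_congr rfl fun y _ => Finset.sum_congr rfl fun x _ => ?_
    rw [e2, Matrix.transpose_apply]
    rfl

variable {H : HData (Option ι)} (hH : ∀ t : ℂ, H.l t = ob 1 (V.rot t))

include hC hH in
lemma BO_le {l : Type} [Fintype l] [DecidableEq l] : BO C l ≤ BB H l := by
  classical
  intro a ha t ht
  funext w
  obtain ⟨κ, j, u, hj, rfl⟩ := exists_xt w
  have hfin : Fintype κ := Fintype.ofInjective j hj
  rw [hH, kp_xt hj, rs_ca, mem_Hdg.1 (CQ_le hC (ha κ j hj)) t ht]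
  rfl

include hH in
lemma BO_small {N : ℕ} (h : ∀ n ≤ N, V.Hdg (Fin n) ≤ C n) {l : Type} [Fintype l] [DecidableEq l]
    (hl : Fintype.card l ≤ N) : BB H l ≤ BO C l := by
  classical
  intro a ha κ j hj
  have hfin : Fintype κ := Fintype.ofInjective j hj
  refine CQ_small h ((Fintype.card_le_of_injective j hj).trans hl) ?_
  rw [mem_Hdg]
  intro t ht
  funext u
  have h1 := congrFun (ha t ht) (xt j u)
  rw [hH, kp_xt hj, rs_ca] at h1
  exact h1

/-- The extension of an array. -/
noncomputable def ea {l : Type} (a : (l → ι) → ℚ) : (l → Option ι) → ℚ :=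
  Function.extend (fun u k => some (u k)) a 0

lemma some_inj' {l : Type} : Function.Injective fun (u : l → ι) (k : l) => some (u k) :=
  fun _ _ h => funext fun k => Option.some_injective _ (congrFun h k)

lemma ea_apply {l : Type} (a : (l → ι) → ℚ) (u : l → ι) : ea a (fun k => some (u k)) = a u :=
  some_inj'.extend_apply _ _ u

lemma ea_zero {l : Type} (a : (l → ι) → ℚ) {w : l → Option ι} {k : l} (h : w k = none) :
    ea a w = 0 := by
  rw [ea, Function.extend_apply']
  · rfl
  · rintro ⟨u, rfl⟩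
    exact absurd h (by simp)

lemma rs_ea_zero {κ l : Type} {j : κ → l} {a : (l → ι) → ℚ} {m : l} (hm : ∀ k, j k ≠ m) :
    rs j (ea a) = 0 := by
  funext u
  rw [rs]
  exact ea_zero a (xt_apply' u hm)

lemma rs_ea_equiv {κ l : Type} (e : κ ≃ l) (a : (l → ι) → ℚ) :
    rs e (ea a) = rei e.symm a := by
  funext u
  rw [rs, rei]
  have h1 : xt e u = fun k => some ((u ∘ e.symm) k) := by
    refine xt_eq e.injective (fun k => ?_) fun m hm => ?_
    · simp
    · exact absurd (e.apply_symm_apply m) (hm _)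
  rw [h1, ea_apply]

include hH in
lemma ea_mem {l : Type} [Fintype l] [DecidableEq l] {a : (l → ι) → ℚ} (ha : a ∈ V.Hdg l) :
    ea a ∈ BB H l := by
  classical
  intro t ht
  funext w
  obtain ⟨κ, j, u, hj, rfl⟩ := exists_xt w
  have hfin : Fintype κ := Fintype.ofInjective j hj
  rw [hH, kp_xt hj, rs_ca]
  have h1 : rs j (ea a) ∈ V.Hdg κ := by
    by_cases h : Function.Surjective j
    · have h2 := rs_ea_equiv (Equiv.ofBijective j ⟨hj, h⟩) a
      have h3 : rs j (ea a) = rs (Equiv.ofBijective j ⟨hj, h⟩) (ea a) := rfl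
      rw [h3, h2]
      exact Hdg_rei' _ ha
    · obtain ⟨m, hm⟩ := not_forall.1 h
      rw [rs_ea_zero (m := m) fun k hk => hm ⟨k, hk⟩]
      exact Submodule.zero_mem _
  rw [mem_Hdg.1 h1 t ht]
  rfl

lemma ea_out {n : ℕ} {a : (Fin n → ι) → ℚ} (h : ea a ∈ BO C (Fin n)) : a ∈ C n := by
  have h1 := h (Fin n) id Function.injective_id n (Equiv.refl _)
  convert h1 using 1
  exact (rs_ea_equiv (Equiv.refl (Fin n)) a).symm

include hC hH in
/-- The rational family. -/
theorem rfam (hQ : H.Qr = ob 1 ψᵀ) : RFam H fun n => BO C (Fin (n + 1)) where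
  perm n σ a ha := BO_rei σ ha
  tens n m a b ha hb := BO_rei _ (BO_tens hC ha hb)
  contr n a ha := by
    rw [hQ]
    exact BO_ctr hC n ha
  le n := BO_le hC hH

end Pool.Agent.N174.BPN
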