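import Pool.Agent.N174.BPN.Opt
import Pool.Agent.N996.BP.PHS2

/-!
# The coordinate data of the Hodge structure with the unit added
-/

set_option linter.unusedSectionVars false

namespace Pool.Agent.N174.BPN

open Matrix ComplexConjugate Pool.Agent.N996.BP

variable {ι : Type} [Fintype ι] [DecidableEq ι] (V : HodgeStr ι)

lemma cx_eq {m n : Type*} (M : Matrix m n ℚ) : cx M = cQ M := rfl

namespace HodgeStr

/-- Diagonal operators. -/
noncomputable def op (f : ℤ → ℂ) : Matrix ι ι ℂ := ∑ k ∈ Finset.Icc (-V.w : ℤ) V.w, f k • V.P k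

lemma rot_eq (t : ℂ) : V.rot t = V.op fun k => t ^ k := rfl

lemma op_one : V.op (fun _ => 1) = 1 := by
  rw [op, ← V.sum_P]
  exact Finset.sum_congr rfl fun k _ => one_smul _ _

lemma op_mul (f g : ℤ → ℂ) : V.op f * V.op g = V.op fun k => f k * g k := by
  rw [op, op, op, Finset.sum_mul]
  refine Finset.sum_congr rfl fun k hk => ?_
  rw [Finset.mul_sum, Finset.sum_eq_single k]
  · rw [Matrix.smul_mul, Matrix.mul_smul, V.mul_P k hk k hk, if_pos rfl, smul_smul]
  · intro l hl hlk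
    rw [Matrix.smul_mul, Matrix.mul_smul, V.mul_P k hk l hl, if_neg (Ne.symm hlk), smul_zero,
      smul_zero]
  · intro h; exact absurd hk h

lemma sum_neg' {M : Type*} [AddCommMonoid M] (w : ℕ) (f : ℤ → M) :
    ∑ k ∈ Finset.Icc (-w : ℤ) w, f (-k) = ∑ k ∈ Finset.Icc (-w : ℤ) w, f k := by
  refine Finset.sum_nbij' (fun k => -k) (fun k => -k) ?_ ?_ ?_ ?_ ?_
  · intro k hk; rw [Finset.mem_Icc] at hk ⊢; omega
  · intro k hk; rw [Finset.mem_Icc] at hk ⊢; omega
  · intro k _; exact neg_neg k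
  · intro k _; exact neg_neg k
  · intro k _; rfl

lemma op_conj (f : ℤ → ℂ) : (V.op f).map conj = V.op fun k => conj (f (-k)) := by
  rw [op, op, ← sum_neg' V.w (fun k => conj (f (-k)) • V.P k)]
  ext i j
  rw [Matrix.map_apply, Matrix.sum_apply, Matrix.sum_apply, map_sum]
  refine Finset.sum_congr rfl fun k hk => ?_
  rw [Matrix.smul_apply, Matrix.smul_apply, ← V.conj_P k hk, smul_eq_mul, smul_eq_mul, map_mul,
    neg_neg, Matrix.map_apply]

variable {V} {ψ : Matrix ι ι ℚ} (hψ : V.IsPolarisation ψ)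

include hψ in
lemma op_form (f : ℤ → ℂ) : (V.op f)ᵀ * cx ψ = cx ψ * V.op fun k => f (-k) := by
  rw [op, op, ← sum_neg' V.w (fun k => f (-k) • V.P k), Matrix.transpose_sum, Finset.sum_mul,
    Finset.mul_sum]
  refine Finset.sum_congr rfl fun k hk => ?_
  rw [Matrix.transpose_smul, Matrix.smul_mul, Matrix.mul_smul, hψ.orth k hk, neg_neg]

include hψ in
lemma pos_term {k : ℤ} (hk : k ∈ Finset.Icc (-V.w : ℤ) V.w) (z : ι → ℂ) :
    ∃ r : ℝ, 0 ≤ r ∧ (V.P k *ᵥ z ≠ 0 → 0 < r) ∧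
      Complex.I ^ k * ((V.P k *ᵥ z) ⬝ᵥ (cx ψ *ᵥ fun i => conj (z i))) = r := by
  have h1 : (fun i => conj ((V.P k *ᵥ z) i)) = V.P (-k) *ᵥ fun i => conj (z i) := by
    rw [← V.conj_P k hk]
    funext i
    rw [Matrix.mulVec, Matrix.mulVec, dotProduct, dotProduct, map_sum]
    exact Finset.sum_congr rfl fun j _ => by rw [map_mul, Matrix.map_apply]
  have h2 : V.P k *ᵥ (V.P k *ᵥ z) = V.P k *ᵥ z := by
    rw [Matrix.mulVec_mulVec, V.mul_P k hk k hk, if_pos rfl]
  have h3 : (V.P k *ᵥ z) ⬝ᵥ (cx ψ *ᵥ fun i => conj ((V.P k *ᵥ z) i)) =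
      (V.P k *ᵥ z) ⬝ᵥ (cx ψ *ᵥ fun i => conj (z i)) := by
    rw [h1, Matrix.mulVec_mulVec, ← hψ.orth k hk, ← Matrix.mulVec_mulVec,
      Matrix.dotProduct_mulVec, Matrix.vecMul_transpose, h2]
  by_cases h0 : V.P k *ᵥ z = 0
  · refine ⟨0, le_rfl, fun h => absurd h0 h, ?_⟩
    rw [h0, zero_dotProduct, mul_zero, Complex.ofReal_zero]
  · obtain ⟨r, hr, h4⟩ := hψ.pos k hk _ h2 h0
    exact ⟨r, hr.le, fun _ => hr, by rw [← h3]; exact h4⟩

include hψ in
/-- The data of the Hodge structure with the unit added. -/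
theorem exists_hdata : ∃ H : HData (Option ι), H.D.o = none ∧ H.w = V.w ∧ H.Qr = ob 1 ψᵀ ∧
    (∀ k, H.π k = ob (if k = 0 then 1 else 0) (V.P k)) ∧ ∀ t : ℂ, H.l t = ob 1 (V.rot t) := by
  classical
  have hIr : ∀ n : ℤ, conj (Complex.I ^ (-n)) = Complex.I ^ n := by
    intro n
    rw [map_zpow₀, Complex.conj_I, _root_.zpow_neg, ← _root_.inv_zpow, inv_neg, Complex.inv_I,
      neg_neg]
  have hreal : ∀ f : ℤ → ℂ, (∀ n, conj (f (-n)) = f n) →
      cR ((V.op f).map Complex.re) = V.op f := by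
    intro f hf
    ext i j
    have h1 := congrFun (congrFun (V.op_conj f) i) j
    have h2 : (fun k => conj (f (-k))) = f := funext hf
    rw [h2, Matrix.map_apply] at h1
    rw [cR, Matrix.map_apply, Matrix.map_apply]
    exact Complex.conj_eq_iff_re.1 h1
  obtain ⟨C, hC⟩ : ∃ C : Matrix ι ι ℝ, cR C = V.op (fun k => Complex.I ^ k) :=
    ⟨_, hreal _ hIr⟩
  obtain ⟨Ci, hCi⟩ : ∃ Ci : Matrix ι ι ℝ, cR Ci = V.op (fun k => Complex.I ^ (-k)) :=
    ⟨_, hreal _ fun n => by rw [hIr]⟩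
  have hCC : C * Ci = 1 := by
    apply IsPHS.cR_inj
    rw [cR_mul, hC, hCi, op_mul, cR_one, ← V.op_one]
    congr 1
    funext k
    rw [← zpow_add₀ Complex.I_ne_zero, add_neg_cancel, zpow_zero]
  obtain ⟨Q, hQ⟩ : ∃ Q : Matrix ι ι ℝ, Q = ψᵀ.map fun x : ℚ => (x : ℝ) := ⟨_, rfl⟩
  have hQc : cR Q = (cx ψ)ᵀ := by
    rw [hQ, IsPHS.cR_cQ]
    rfl
  have hpos : ∀ z : ι → ℂ, ∃ ρ : ℝ, (fun i => conj (z i)) ⬝ᵥ (cR (Q * C) *ᵥ z) = ρ ∧
      (z ≠ 0 → 0 < ρ) := by
    intro z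
    choose r hr0 hr1 hr2 using fun k : {k : ℤ // k ∈ Finset.Icc (-V.w : ℤ) V.w} =>
      pos_term hψ k.2 z
    refine ⟨∑ k, r k, ?_, fun hz => ?_⟩
    · rw [cR_mul, hC, hQc, ← Matrix.mulVec_mulVec, Matrix.mulVec_transpose, dotProduct_comm,
        ← Matrix.dotProduct_mulVec, op, Complex.ofReal_sum]
      have h1 : (∑ k ∈ Finset.Icc (-V.w : ℤ) V.w, Complex.I ^ k • V.P k) *ᵥ z =
          ∑ k ∈ Finset.Icc (-V.w : ℤ) V.w, Complex.I ^ k • (V.P k *ᵥ z) := by
        rw [Matrix.sum_mulVec]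
        exact Finset.sum_congr rfl fun k _ => Matrix.smul_mulVec _ _ _
      rw [h1, sum_dotProduct, ← Finset.sum_coe_sort]
      refine Finset.sum_congr rfl fun k _ => ?_
      rw [smul_dotProduct, smul_eq_mul, hr2]
    · have h1 : ∃ k : {k : ℤ // k ∈ Finset.Icc (-V.w : ℤ) V.w}, V.P k.1 *ᵥ z ≠ 0 := by
        by_contra h
        push Not at h
        apply hz
        have h2 : z = ∑ k ∈ Finset.Icc (-V.w : ℤ) V.w, V.P k *ᵥ z := by
          rw [← Matrix.sum_mulVec, V.sum_P, Matrix.one_mulVec]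
        rw [h2]
        exact Finset.sum_eq_zero fun k hk => h ⟨k, hk⟩
      obtain ⟨k, hk⟩ := h1
      exact Finset.sum_pos' (fun k _ => hr0 k) ⟨k, Finset.mem_univ k, hr1 k hk⟩
  have hposr : ∀ u : ι → ℝ, u ≠ 0 → 0 < u ⬝ᵥ ((Q * C) *ᵥ u) := by
    intro u hu
    obtain ⟨ρ, h1, h2⟩ := hpos fun i => (u i : ℂ)
    have h3 : (fun i => (u i : ℂ)) ≠ 0 := by
      intro h0
      apply hu
      ext i
      have := congrFun h0 i
      exact Complex.ofReal_eq_zero.1 this
    have h4 : (fun i => conj ((u i : ℂ))) = fun i => (u i : ℂ) := by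
      ext i; rw [Complex.conj_ofReal]
    rw [h4, IsPHS.cR_dot] at h1
    have h5 : u ⬝ᵥ ((Q * C) *ᵥ u) = ρ := by exact_mod_cast h1
    rw [h5]
    exact h2 h3
  have hsym : ∀ u v : ι → ℝ, u ⬝ᵥ ((Q * C) *ᵥ v) = v ⬝ᵥ ((Q * C) *ᵥ u) := by
    intro u v
    obtain ⟨ρ, h1, -⟩ := hpos ((fun i => (u i : ℂ)) + Complex.I • fun i => (v i : ℂ))
    have h2 : (fun i => conj (((fun i => (u i : ℂ)) + Complex.I • fun i => (v i : ℂ)) i)) =
        (fun i => (u i : ℂ)) - Complex.I • fun i => (v i : ℂ) := by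
      ext i
      simp [sub_eq_add_neg]
    rw [h2, Matrix.mulVec_add, Matrix.mulVec_smul, sub_dotProduct, dotProduct_add,
      dotProduct_add, smul_dotProduct, smul_dotProduct, dotProduct_smul, dotProduct_smul,
      IsPHS.cR_dot, IsPHS.cR_dot, IsPHS.cR_dot, IsPHS.cR_dot] at h1
    have h3 := congrArg Complex.im h1
    simp only [smul_eq_mul, Complex.sub_im, Complex.add_im, Complex.ofReal_im, Complex.mul_im,
      Complex.I_re, Complex.I_im, Complex.ofReal_re, Complex.mul_re] at h3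
    linarith
  obtain ⟨M, Mi, hM, hMS⟩ := exists_sqrt (S := Q * C) hsym hposr
  have hdet : ψᵀ.det ≠ 0 := by
    intro h0
    have h1 : (Q * C).det = 0 := by
      rw [Matrix.det_mul, hQ]
      have h2 : (ψᵀ.map fun x : ℚ => (x : ℝ)).det = ((ψᵀ.det : ℚ) : ℝ) := by
        have := (RingHom.map_det (Rat.castHom ℝ) ψᵀ).symm
        exact this
      rw [h2, h0]
      simp
    rw [← hMS, Matrix.det_mul, Matrix.det_transpose, mul_self_eq_zero] at h1
    have h2 := congrArg Matrix.det hM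
    rw [Matrix.det_mul, h1, zero_mul, Matrix.det_one] at h2
    exact zero_ne_one h2
  have hQQ : ψᵀ * (ψᵀ)⁻¹ = 1 := Matrix.mul_nonsing_inv ψᵀ (isUnit_iff_ne_zero.2 hdet)
  have hform : ∀ f : ℤ → ℂ, (V.op f)ᵀ * (cx ψ)ᵀ = (cx ψ)ᵀ * V.op (fun k => f (-k)) := by
    intro f
    have h1 := congrArg Matrix.transpose (op_form hψ (fun k => f (-k)))
    rw [Matrix.transpose_mul, Matrix.transpose_mul, Matrix.transpose_transpose] at h1
    simp only [neg_neg] at h1
    exact h1.symm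
  have hCQC : Cᵀ * Q * C = Q := by
    apply IsPHS.cR_inj
    rw [cR_mul, cR_mul, hQc]
    have h1 : cR Cᵀ = (V.op (fun k => Complex.I ^ k))ᵀ := by
      rw [← hC]
      rfl
    rw [h1, hC, hform, Matrix.mul_assoc, op_mul]
    have h2 : (fun k : ℤ => Complex.I ^ (-k) * Complex.I ^ k) = fun _ => 1 := by
      funext k
      rw [← zpow_add₀ Complex.I_ne_zero, neg_add_cancel, zpow_zero]
    rw [h2, op_one, Matrix.mul_one]
  have h0mem : (0 : ℤ) ∈ Finset.Icc (-V.w : ℤ) V.w := by rw [Finset.mem_Icc]; omega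
  obtain ⟨π, hπ⟩ : ∃ π : ℤ → Matrix (Option ι) (Option ι) ℂ,
      π = fun k => ob (if k = 0 then 1 else 0) (V.P k) := ⟨_, rfl⟩
  have hlt : ∀ t : ℂ, lt V.w π t = ob 1 (V.rot t) := by
    intro t
    rw [lt, hπ, rot]
    have h1 : ∀ k ∈ Finset.Icc (-V.w : ℤ) V.w,
        t ^ k • ob (if k = 0 then (1 : ℂ) else 0) (V.P k) =
          ob (t ^ k * if k = 0 then 1 else 0) (t ^ k • V.P k) := fun k _ => ob_smul _ _ _
    rw [Finset.sum_congr rfl h1, ob_sum]
    congr 1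
    rw [Finset.sum_eq_single 0]
    · rw [if_pos rfl, zpow_zero, mul_one]
    · intro k _ hk; rw [if_neg hk, mul_zero]
    · intro h; exact absurd h0mem h
  refine ⟨{
    D := {
      Q := ob 1 Q
      Qi := (ob 1 (ψᵀ)⁻¹).map fun x : ℚ => (x : ℝ)
      C := ob 1 C
      Ci := ob 1 Ci
      M := ob 1 M
      Mi := ob 1 Mi
      o := none
      hQ := ?_
      hC := ?_
      hM := ?_
      hS := ?_
      hCQ := ?_
      ho := rfl
      hCo := ?_ }
    Qr := ob 1 ψᵀ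
    Qir := ob 1 (ψᵀ)⁻¹
    w := V.w
    π := π
    hQr := ?_
    hQir := rfl
    h1 := ?_
    hmul := ?_
    hπQ := ?_
    hconj := ?_
    hC := ?_
    ho := ?_ }, rfl, rfl, rfl, fun k => congrFun hπ k, fun t => hlt t⟩
  · rw [ob_map _ Rat.cast_zero, ob_mul, Rat.cast_one, one_mul, ← ob_one]
    congr 1
    apply IsPHS.cR_inj
    rw [cR_mul, hQ, IsPHS.cR_cQ, IsPHS.cR_cQ, ← cQ_mul, hQQ, cQ_one, cR_one]
  · rw [ob_mul, hCC, one_mul, ob_one]
  · rw [ob_mul, hM, one_mul, ob_one]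
  · rw [ob_mul, ob_transpose, ob_mul, hMS, one_mul]
  · rw [ob_transpose, ob_mul, ob_mul, hCQC, one_mul, one_mul]
  · intro i
    rcases i with _ | i
    · rw [ob_nn, if_pos rfl]
    · rw [ob_sn, if_neg (by simp)]
  · change ob 1 Q = (ob 1 ψᵀ).map fun x : ℚ => (x : ℝ)
    rw [ob_map _ Rat.cast_zero, Rat.cast_one, hQ]
  · have h1 := hlt 1
    rw [lt] at h1
    simp only [_root_.one_zpow, one_smul] at h1
    rw [h1, rot_eq]
    simp only [_root_.one_zpow]
    rw [op_one, ob_one]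
  · intro k hk l hl
    rw [hπ]
    simp only
    rw [ob_mul, V.mul_P k hk l hl]
    by_cases h : k = l
    · subst h
      rw [if_pos rfl, if_pos rfl]
      congr 1
      split_ifs <;> simp
    · rw [if_neg h, if_neg h, ← ob_zero]
      congr 1
      by_cases h2 : k = 0
      · rw [if_pos h2, if_neg (fun h3 => h (h2.trans h3.symm)), mul_zero]
      · rw [if_neg h2, zero_mul]
  · intro k hk
    have h1 := hform fun j => if j = k then 1 else 0
    have h2 : ∀ k ∈ Finset.Icc (-V.w : ℤ) V.w, V.op (fun j => if j = k then 1 else 0) = V.P k := by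
      intro k hk
      rw [op, Finset.sum_eq_single k]
      · rw [if_pos rfl, one_smul]
      · intro l _ hl; rw [if_neg hl, zero_smul]
      · intro h; exact absurd hk h
    have h3 : V.op (fun j => if -j = k then 1 else 0) = V.P (-k) := by
      rw [← h2 (-k) (by rw [Finset.mem_Icc] at hk ⊢; omega)]
      congr 1
      funext j
      exact if_congr (by omega) rfl rfl
    rw [h2 k hk, h3] at h1
    have h4 : cQ (ob 1 ψᵀ) = ob 1 (cx ψ)ᵀ := by
      rw [cQ, ob_map _ Rat.cast_zero, Rat.cast_one]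
      rfl
    rw [hπ, h4]
    simp only
    rw [ob_transpose, ob_mul, ob_mul, h1, mul_one, one_mul]
    congr 1
    exact if_congr (by omega) rfl rfl
  · intro k hk
    rw [hπ]
    simp only
    rw [ob_map _ (map_zero _), V.conj_P k hk]
    congr 1
    by_cases h : k = 0
    · rw [if_pos h, if_pos (by omega), map_one]
    · rw [if_neg h, if_neg (by omega), map_zero]
  · rw [hlt, ob_map _ Complex.ofReal_zero, Complex.ofReal_one]
    congr 1
  · intro t ht i
    rw [hlt]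
    rcases i with _ | i
    · rw [ob_nn, if_pos rfl]
    · rw [ob_sn, if_neg (by simp)]

end HodgeStr

end Pool.Agent.N174.BPN
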