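import Pool.Agent.N174.BPN.Fm
import Pool.Agent.N996.FP.Wcw

/-!
# The bounded power theorem for tensor families
-/

set_option linter.unusedSectionVars false

namespace Pool.Agent.N174.BPN

open Matrix ComplexConjugate TensorProduct Module Pool.Agent.N996.BP Pool.Agent.N996.FP

variable {ι : Type} [Fintype ι] [DecidableEq ι] {V : HodgeStr ι} {ψ : Matrix ι ι ℚ}
  {C : ∀ n : ℕ, Submodule ℚ ((Fin n → ι) → ℚ)} {H : HData (Option ι)}

lemma ob_mulVec (g : Matrix ι ι ℂ) {v w : Option ι → ℂ} (h0 : v none = w none)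
    (h1 : (g *ᵥ fun j => v (some j)) = fun j => w (some j)) : ob 1 g *ᵥ v = w := by
  funext i
  rw [Matrix.mulVec, dotProduct, Fintype.sum_option]
  rcases i with _ | i
  · simp [h0]
  · simp only [ob_sn, zero_mul, ob_ss, zero_add]
    exact congrFun h1 i

variable (hH : ∀ t : ℂ, H.l t = ob 1 (V.rot t))

/-- The rational vectors with transcendental part zero. -/
noncomputable def mq (V : HodgeStr ι) : (Option ι → ℚ) →ₗ[ℚ] ((ι → ℚ) ⧸ V.hdg) :=
  V.hdg.mkQ ∘ₗ LinearMap.funLeft ℚ ℚ some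

lemma mem_ker_mq {v : Option ι → ℚ} : v ∈ LinearMap.ker (mq V) ↔ (fun i => v (some i)) ∈ V.hdg := by
  rw [LinearMap.mem_ker, mq, LinearMap.comp_apply, Submodule.mkQ_apply,
    Submodule.Quotient.mk_eq_zero]
  rfl

lemma mq_surj : Function.Surjective (mq V) := by
  intro y
  obtain ⟨x, rfl⟩ := V.hdg.mkQ_surjective y
  refine ⟨fun i => i.elim 0 x, ?_⟩
  rw [mq, LinearMap.comp_apply]
  rfl

include hH in
lemma ker_ho {v : Option ι → ℚ} (hv : v ∈ LinearMap.ker (mq V)) {w : Matrix (Option ι) (Option ι) ℂ}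
    (hw : w ∈ ho H) : w *ᵥ (fun i => (v i : ℂ)) = 0 := by
  have h0 : ca (un v) = un (fun i => (v i : ℂ)) := rfl
  have h3 : un v ∈ BB H Unit := by
    intro t ht
    rw [h0, kp_un, hH]
    congr 1
    exact ob_mulVec _ rfl (mem_ker_mq.1 hv t ht)
  have h4 := hw Unit _ h3
  rw [h0, dk_un] at h4
  exact un_inj h4

include hH in
/-- The number of the Hodge classes. -/
lemma ker_le_Z0 : finrank ℚ (LinearMap.ker (mq V)) ≤ finrank ℂ (Z0 H) := by
  let e : Basis (Option ι) ℚ (Option ι → ℚ) := Pi.basisFun ℚ (Option ι)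
  let E : (ℂ ⊗[ℚ] (Option ι → ℚ)) ≃ₗ[ℂ] (Option ι → ℂ) := (e.baseChange ℂ).equivFun
  have hE : ∀ v : Option ι → ℚ, E ((1 : ℂ) ⊗ₜ[ℚ] v) = fun i => (v i : ℂ) := by
    intro v
    funext i
    have h1 := crd_tmul e (1 : ℂ) v i
    rw [one_mul] at h1
    exact h1
  let S := LinearMap.ker (mq V)
  let f : (ℂ ⊗[ℚ] S) →ₗ[ℂ] (Option ι → ℂ) :=
    (Matrix.mulVecLin (Mm H)) ∘ₗ E.toLinearMap ∘ₗ S.subtype.baseChange ℂ
  have hf1 : ∀ (z : ℂ) (c : S), f (z ⊗ₜ[ℚ] c) =
      z • (Mm H *ᵥ fun i => ((c : Option ι → ℚ) i : ℂ)) := by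
    intro z c
    change Mm H *ᵥ (E (S.subtype.baseChange ℂ (z ⊗ₜ[ℚ] c))) = _
    rw [LinearMap.baseChange_tmul]
    have h1 : z ⊗ₜ[ℚ] S.subtype c = z • ((1 : ℂ) ⊗ₜ[ℚ] (c : Option ι → ℚ)) := by
      rw [TensorProduct.smul_tmul', smul_eq_mul, mul_one]
      rfl
    rw [h1, map_smul, hE, Matrix.mulVec_smul]
  have hf : ∀ y, f y ∈ Z0 H := by
    intro y
    induction y using TensorProduct.induction_on with
    | zero => rw [map_zero]; exact Submodule.zero_mem _
    | tmul z c =>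
      rw [hf1]
      refine Submodule.smul_mem _ z fun w hw => ?_
      have h1 := ker_ho hH c.2 (w := cj H w) (mem_hn H |>.1 hw)
      have h2 := congrArg (fun v => Mm H *ᵥ v) h1
      beta_reduce at h2
      rw [Matrix.mulVec_zero, cj, ← Matrix.mulVec_mulVec, ← Matrix.mulVec_mulVec,
        Matrix.mulVec_mulVec _ (Mm H) (Mi H), Mm_Mi, Matrix.one_mulVec] at h2
      exact h2
    | add a b ha hb => rw [map_add]; exact Submodule.add_mem _ ha hb
  have hinj : Function.Injective f := by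
    have h1 : Function.Injective (S.subtype.baseChange ℂ) :=
      Module.Flat.lTensor_preserves_injective_linearMap (M := ℂ) _ S.injective_subtype
    have h2 : Function.Injective (Matrix.mulVecLin (Mm H)) := by
      intro a b hab
      have h3 := congrArg (fun v => Mi H *ᵥ v) hab
      simp only [Matrix.mulVecLin_apply, Matrix.mulVec_mulVec, Mi_Mm, Matrix.one_mulVec] at h3
      exact h3
    exact h2.comp (E.injective.comp h1)
  have h3 := LinearMap.finrank_le_finrank_of_injective (f := f.codRestrict (Z0 H) hf)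
    (fun a b hab => hinj (congrArg Subtype.val hab))
  rwa [Module.finrank_baseChange] at h3

include hH in
lemma card_le : Fintype.card (Option ι) ≤ V.transRank + finrank ℂ (Z0 H) := by
  have h1 := ker_le_Z0 hH
  have h2 := LinearMap.finrank_range_add_finrank_ker (mq V)
  rw [LinearMap.range_eq_top.2 mq_surj, finrank_top, Module.finrank_fintype_fun_eq_card] at h2
  rw [HodgeStr.transRank]
  omega

include hH in
/-- Central endomorphisms. -/
lemma isC_ob {y : Matrix (Option ι) (Option ι) ℚ} (hy : IsC H y) :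
    ∃ (c : ℚ) (x : Matrix ι ι ℚ), y = ob c x ∧ V.IsCentral x := by
  have h0 : ∀ (c : ℚ) (x : Matrix ι ι ℚ), cQ (ob c x) = ob (c : ℂ) (cx x) := fun c x =>
    ob_map _ Rat.cast_zero _ _
  have h1 : IsHE H (ob 1 (0 : Matrix ι ι ℚ)) := by
    intro t _
    have h2 : cx (0 : Matrix ι ι ℚ) = 0 := by ext; simp [cx]
    rw [hH, h0, ob_mul, ob_mul, h2, mul_zero, zero_mul, mul_comm]
  have h2 := hy.2 _ h1
  have h3 : y = ob (y none none) (Matrix.of fun i j => y (some i) (some j)) := by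
    refine ext_opt rfl (fun j => ?_) (fun i => ?_) fun i j => rfl
    · have h4 := congrFun (congrFun h2 none) (some j)
      rw [Matrix.mul_apply, Matrix.mul_apply, Fintype.sum_option, Fintype.sum_option] at h4
      simp at h4
      rw [← h4]
      rfl
    · have h4 := congrFun (congrFun h2 (some i)) none
      rw [Matrix.mul_apply, Matrix.mul_apply, Fintype.sum_option, Fintype.sum_option] at h4
      simp at h4
      rw [h4]
      rfl
  obtain ⟨c, hc⟩ : ∃ c, c = y none none := ⟨_, rfl⟩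
  obtain ⟨x, hx⟩ : ∃ x : Matrix ι ι ℚ, x = Matrix.of fun i j => y (some i) (some j) := ⟨_, rfl⟩
  rw [← hc, ← hx] at h3
  refine ⟨c, x, h3, fun t ht => ?_, fun z hz => ?_⟩
  · have h4 := hy.1 t ht
    rw [h3, hH, h0, ob_mul, ob_mul] at h4
    exact (ob_inj h4).2
  · have h4 : IsHE H (ob 0 z) := by
      intro t ht
      rw [hH, h0, ob_mul, ob_mul, hz t ht, mul_comm]
    have h5 := hy.2 _ h4
    rw [h3, ob_mul, ob_mul] at h5
    exact (ob_inj h5).2

include hH in
lemma adj_of (hQ : H.Qr = ob 1 ψᵀ) (h : V.SelfAdjointCentre ψ)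
    {y : Matrix (Option ι) (Option ι) ℚ} (hy : IsC H y) :
    cQ y * cQ H.Qir = cQ H.Qir * (cQ y)ᵀ := by
  obtain ⟨c, x, rfl, hx⟩ := isC_ob hH hy
  have h1 := congrArg Matrix.transpose (h x hx)
  rw [Matrix.transpose_mul, Matrix.transpose_mul, Matrix.transpose_transpose] at h1
  have h2 : H.Qr * ob c x = (ob c x)ᵀ * H.Qr := by
    rw [hQ, ob_transpose, ob_mul, ob_mul, h1, one_mul, mul_one]
  have h3 : H.Qr * H.Qir = 1 := H.Qr_Qir
  have h4 : H.Qir * H.Qr = 1 := mul_eq_one_comm.1 h3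
  have h5 : ob c x * H.Qir = H.Qir * (ob c x)ᵀ := by
    calc ob c x * H.Qir = H.Qir * (H.Qr * ob c x) * H.Qir := by
          rw [← Matrix.mul_assoc H.Qir, h4, Matrix.one_mul]
      _ = H.Qir * (ob c x)ᵀ := by
          rw [h2, Matrix.mul_assoc, Matrix.mul_assoc, h3, Matrix.mul_one]
  have h6 : (cQ (ob c x))ᵀ = cQ (ob c x)ᵀ := rfl
  rw [h6, ← cQ_mul, ← cQ_mul, h5]

include hH in
lemma tr_of (hw : H.w = V.w) (hπ : ∀ k, H.π k = ob (if k = 0 then 1 else 0) (V.P k))
    (h : V.TraceFreeCentre) {y : Matrix (Option ι) (Option ι) ℚ} (hy : IsC H y) :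
    (cQ y * Ng H (RingEquiv.refl ℂ)).trace = 0 := by
  obtain ⟨c, x, rfl, hx⟩ := isC_ob hH hy
  have h0 : cQ (ob c x) = ob (c : ℂ) (cx x) := ob_map _ Rat.cast_zero _ _
  have h1 : Ng H (RingEquiv.refl ℂ) =
      ob 0 (∑ k ∈ Finset.Icc (-V.w : ℤ) V.w, (k : ℂ) • V.P k) := by
    have h2 : ∀ k ∈ Finset.Icc (-V.w : ℤ) V.w,
        (k : ℂ) • (H.π k).map (RingEquiv.refl ℂ) = ob 0 ((k : ℂ) • V.P k) := by
      intro k _
      have h3 : (H.π k).map (RingEquiv.refl ℂ) = H.π k := by ext; rfl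
      rw [h3, hπ, ob_smul]
      congr 1
      by_cases h4 : k = 0
      · rw [h4, Int.cast_zero, zero_mul]
      · rw [if_neg h4, mul_zero]
    have h3 : Ng H (RingEquiv.refl ℂ) = ∑ k ∈ Finset.Icc (-V.w : ℤ) V.w,
        (k : ℂ) • (H.π k).map (RingEquiv.refl ℂ) := by
      rw [← hw]
      rfl
    rw [h3, Finset.sum_congr rfl h2, ob_sum, Finset.sum_const_zero]
  have h4 := h x hx
  have h5 : (cx x * ∑ k ∈ Finset.Icc (-V.w : ℤ) V.w, (k : ℂ) • V.P k).trace = 0 := by
    rw [Finset.mul_sum, Matrix.trace_sum, ← h4]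
    refine Finset.sum_congr rfl fun k _ => ?_
    rw [Matrix.mul_smul, Matrix.trace_smul, smul_eq_mul]
  rw [h0, h1, ob_mul, mul_zero, Matrix.trace, Fintype.sum_option]
  simp only [Matrix.diag_apply, ob_nn, ob_ss, zero_add]
  exact h5

/-- **The bounded power theorem for tensor families.** -/
theorem core (hψ : V.IsPolarisation ψ) (hC : IsTensorFamily V ψ C) {N : ℕ}
    (hN : V.IsExponent ψ N) (h : ∀ n ≤ N, V.Hdg (Fin n) ≤ C n) (n : ℕ) :
    V.Hdg (Fin n) ≤ C n := by
  obtain ⟨H, -, hw, hQ, hπ, hH⟩ := HodgeStr.exists_hdata hψ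
  have hfam := rfam hC hH hQ
  have hsm : ∀ n, n + 1 ≤ N → BB H (Fin (n + 1)) ≤ BO C (Fin (n + 1)) := fun n hn =>
    BO_small hH h (by rwa [Fintype.card_fin])
  have hall : ∀ n, BB H (Fin (n + 1)) ≤ BO C (Fin (n + 1)) := by
    intro n
    rcases hN with ⟨h1, h2⟩ | ⟨h1, h2⟩ | h2
    · exact tcore_adj (B := fun n => BO C (Fin (n + 1))) (fun _ hy => adj_of hH hQ h1 hy)
        (by omega) (by omega) (card_le hH) hfam hsm n
    · exact tcore_tr (B := fun n => BO C (Fin (n + 1))) (fun _ hy => tr_of hH hw hπ h1 hy)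
        (by omega) (by omega) (card_le hH) hfam hsm n
    · exact tcore_gen (B := fun n => BO C (Fin (n + 1))) (w := max 1 V.w) (le_max_left _ _)
        (by rw [hw]; exact le_max_right _ _) (by omega) (by omega) (card_le hH) hfam hsm n
  rcases n with _ | n
  · rw [hC.one]
    exact le_top
  · intro a ha
    exact ea_out (hall n (ea_mem hH ha))

end Pool.Agent.N174.BPN
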