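import Pool.Agent.N174.BPN.DefsM
import Pool.Agent.N174.BPN.Fin

/-!
# Fullness on the morphisms between tensor powers
-/

set_option linter.unusedSectionVars false

namespace Pool.Agent.N174.BPN

open Matrix Pool.Agent.N996.BP

variable {ι : Type} [Fintype ι] [DecidableEq ι] {V : HodgeStr ι} {ψ : Matrix ι ι ℚ}
  {C : ∀ n : ℕ, Submodule ℚ ((Fin n → ι) → ℚ)}

theorem full (hψ : V.IsPolarisation ψ) (hall : ∀ n, V.Hdg (Fin n) ≤ C n) {a b : ℕ}
    (f : Matrix (Fin b → ι) (Fin a → ι) ℚ) (hf : IsHodgeMor V f) : IsMotMor ψ C f := by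
  obtain ⟨ψi, hψi⟩ := exists_inv hψ
  have hψi' : ψi * ψ = 1 := mul_eq_one_comm.1 hψi
  let A : (Fin b ⊕ Fin a → ι) → ℚ := arr (f * kp (Fin a) ψi)
  have hA : A ∈ V.Hdg (Fin b ⊕ Fin a) := by
    rw [mem_Hdg]
    intro t ht
    have h1 : ca A = arr (cQ f * kp (Fin a) (cQ ψi)) := by
      rw [kp_cQ, ← cQ_mul]
      rfl
    have h2 : kp (Fin b) (V.rot t) * cQ f = cQ f * kp (Fin a) (V.rot t) := by
      ext v u
      rw [Matrix.mul_apply, Matrix.mul_apply]
      exact hf t ht v u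
    have h3 : kp (Fin a) (V.rot t) * kp (Fin a) (cQ ψi) * (kp (Fin a) (V.rot t))ᵀ =
        kp (Fin a) (cQ ψi) := by
      rw [← kp_transpose, ← kp_mul, ← kp_mul]
      congr 1
      exact inv_inv' (isInv_pol hψ) hψi ht
    rw [h1, kp_arr]
    congr 1
    calc kp (Fin b) (V.rot t) * (cQ f * kp (Fin a) (cQ ψi)) * (kp (Fin a) (V.rot t))ᵀ =
        (kp (Fin b) (V.rot t) * cQ f) * kp (Fin a) (cQ ψi) * (kp (Fin a) (V.rot t))ᵀ := by
          simp only [Matrix.mul_assoc]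
      _ = cQ f * (kp (Fin a) (V.rot t) * kp (Fin a) (cQ ψi) * (kp (Fin a) (V.rot t))ᵀ) := by
          rw [h2]; simp only [Matrix.mul_assoc]
      _ = cQ f * kp (Fin a) (cQ ψi) := by rw [h3]
  refine ⟨rei finSumFinEquiv A, hall _ (Hdg_rei' _ hA), fun v u => ?_⟩
  have h4 : ∀ u', rei finSumFinEquiv A (Fin.append v u') = (f * kp (Fin a) ψi) v u' := by
    intro u'
    have e1 : ((Fin.append v u' ∘ finSumFinEquiv) ∘ Sum.inl) = v := by funext i; simp
    have e2 : ((Fin.append v u' ∘ finSumFinEquiv) ∘ Sum.inr) = u' := by funext i; simp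
    change (f * kp (Fin a) ψi) ((Fin.append v u' ∘ finSumFinEquiv) ∘ Sum.inl)
      ((Fin.append v u' ∘ finSumFinEquiv) ∘ Sum.inr) = _
    rw [e1, e2]
  have h5 : ∑ u', rei finSumFinEquiv A (Fin.append v u') * ∏ k, ψ (u' k) (u k) =
      (f * kp (Fin a) ψi * kp (Fin a) ψ) v u := by
    rw [Matrix.mul_apply]
    refine Finset.sum_congr rfl fun u' _ => ?_
    rw [h4, kp_apply]
  rw [h5, Matrix.mul_assoc, ← kp_mul, hψi', kp_one, Matrix.mul_one]

end Pool.Agent.N174.BPN
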