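import Pool.Agent.N174.BPN.DefsNC
import Pool.Agent.N174.BPN.Main

/-!
# The classes of objects form a tensor family
-/

set_option linter.unusedSectionVars false
set_option linter.unusedVariables false

namespace Pool.Agent.N174.BPN

open Matrix Pool.Agent.N996.BP

variable {ι : Type} [Fintype ι] [DecidableEq ι] {V : HodgeStr ι} {ψ : Matrix ι ι ℚ}
  {C : ∀ n : ℕ, Submodule ℚ ((Fin n → ι) → ℚ)} {p : ι → Fin 2} {χ : Matrix ι ι ℚ}

/-- The sign. -/
def sg (p : ι → Fin 2) (i : ι) : ℚ := (-1) ^ (p i : ℕ)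

/-- The parity operator. -/
def Sg (p : ι → Fin 2) : Matrix ι ι ℚ := Matrix.diagonal (sg p)

lemma sg_sq (i : ι) : sg p i * sg p i = 1 := by
  rw [sg, ← pow_add, ← two_mul]
  exact Even.neg_one_pow (even_two_mul _)

lemma ep_eq (x y : ι) : ((-1 : ℚ)) ^ ((p x : ℕ) * (p y : ℕ)) =
    (1 / 2) * (1 + sg p x + sg p y - sg p x * sg p y) := by
  rw [sg, sg]
  rcases Fin.exists_fin_two.1 ⟨p x, rfl⟩ with hx | hx <;>
    rcases Fin.exists_fin_two.1 ⟨p y, rfl⟩ with hy | hy <;> rw [hx, hy] <;> norm_num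

lemma ep_sq (x y : ι) : ((-1 : ℚ)) ^ ((p x : ℕ) * (p y : ℕ)) * (-1) ^ ((p y : ℕ) * (p x : ℕ)) =
    1 := by
  rw [mul_comm (p y : ℕ), ← pow_add, ← two_mul]
  exact Even.neg_one_pow (even_two_mul _)

lemma sum_fin2 {M : Type*} [AddCommMonoid M] (f : (Fin 2 → ι) → M) :
    ∑ w, f w = ∑ x : ι, ∑ y : ι, f ![x, y] := by
  rw [← (finTwoArrowEquiv ι).symm.sum_comp, Fintype.sum_prod_type]
  rfl

/-- Hodge classes in the square. -/
lemma mem_Hdg2 {M : Matrix ι ι ℚ} (h : ∀ t : ℂ, t ≠ 0 → V.rot t * cx M * (V.rot t)ᵀ = cx M) :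
    (fun u : Fin 2 → ι => M (u 0) (u 1)) ∈ V.Hdg (Fin 2) := by
  intro t ht u
  rw [sum_fin2]
  have h1 := congrFun (congrFun (h t ht) (u 0)) (u 1)
  rw [Matrix.mul_apply] at h1
  simp only [Matrix.mul_apply, Finset.sum_mul, Matrix.transpose_apply] at h1
  have h2 : cx M (u 0) (u 1) = ((M (u 0) (u 1) : ℚ) : ℂ) := rfl
  rw [← h2, ← h1, Finset.sum_comm]
  refine Finset.sum_congr rfl fun x _ => Finset.sum_congr rfl fun y _ => ?_
  rw [Fin.prod_univ_two]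
  simp only [Matrix.cons_val_zero, Matrix.cons_val_one]
  change _ = V.rot t (u 0) y * ((M y x : ℚ) : ℂ) * V.rot t (u 1) x
  ring

lemma cx_mul (M N : Matrix ι ι ℚ) : cx (M * N) = cx M * cx N := cQ_mul M N

lemma cx_tr (M : Matrix ι ι ℚ) : cx Mᵀ = (cx M)ᵀ := rfl

lemma rot_inv (V : HodgeStr ι) {t : ℂ} (ht : t ≠ 0) : V.rot t * V.rot t⁻¹ = 1 := by
  rw [V.rot_eq, V.rot_eq, V.op_mul, ← V.op_one]
  congr 1
  funext k
  rw [← mul_zpow, mul_inv_cancel₀ ht, _root_.one_zpow]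

lemma rot_inv' (V : HodgeStr ι) {t : ℂ} (ht : t ≠ 0) : V.rot t⁻¹ * V.rot t = 1 :=
  mul_eq_one_comm.1 (rot_inv V ht)

section NC

variable (hV : IsNC V p χ)

include hV in
/-- The action preserves the parity. -/
lemma Sg_rot (t : ℂ) : cx (Sg p) * V.rot t = V.rot t * cx (Sg p) := by
  have h1 : cx (Sg p) = Matrix.diagonal fun i => (sg p i : ℂ) := by
    rw [cx, Sg, Matrix.diagonal_map Rat.cast_zero]
  rw [h1]
  ext i j
  rw [Matrix.diagonal_mul, Matrix.mul_diagonal]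
  by_cases h : p i = p j
  · rw [sg, sg, h, mul_comm]
  · have h2 : V.rot t i j = 0 := by
      rw [HodgeStr.rot, Matrix.sum_apply]
      refine Finset.sum_eq_zero fun k _ => ?_
      rw [Matrix.smul_apply, hV.par_P k i j h, smul_zero]
    rw [h2, mul_zero, zero_mul]

/-- Invariant forms. -/
def IsInv (V : HodgeStr ι) (Q : Matrix ι ι ℚ) : Prop :=
  ∀ t : ℂ, t ≠ 0 → (V.rot t)ᵀ * cx Q * V.rot t = cx Q

/-- The inverse of an invariant form. -/
lemma inv_inv' {Q Qi : Matrix ι ι ℚ} (hQ : IsInv V Q) (h : Q * Qi = 1) {t : ℂ} (ht : t ≠ 0) :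
    V.rot t * cx Qi * (V.rot t)ᵀ = cx Qi := by
  have h' : Qi * Q = 1 := mul_eq_one_comm.1 h
  have h1 : cx Q * cx Qi = 1 := by rw [← cx_mul, h]; exact cQ_one
  have h2 : cx Qi * cx Q = 1 := mul_eq_one_comm.1 h1
  have h3 := hQ t ht
  -- `(rot)ᵀ Q rot Qi = 1`
  have h4 : (V.rot t)ᵀ * (cx Q * V.rot t * cx Qi) = 1 := by
    rw [← Matrix.mul_assoc, ← Matrix.mul_assoc, h3, h1]
  have h5 : (cx Q * V.rot t * cx Qi) * (V.rot t)ᵀ = 1 := mul_eq_one_comm.1 h4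
  calc V.rot t * cx Qi * (V.rot t)ᵀ = (cx Qi * cx Q) * (V.rot t * cx Qi * (V.rot t)ᵀ) := by
        rw [h2, Matrix.one_mul]
    _ = cx Qi * ((cx Q * V.rot t * cx Qi) * (V.rot t)ᵀ) := by simp only [Matrix.mul_assoc]
    _ = cx Qi := by rw [h5, Matrix.mul_one]

/-- Even forms. -/
def IsEven (p : ι → Fin 2) (Q : Matrix ι ι ℚ) : Prop := ∀ i j, p i ≠ p j → Q i j = 0

variable (hC : IsObjectClasses V p χ C) (h2 : V.Hdg (Fin 2) ≤ C 2)

include hV hC h2 in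
/-- Contractions with invariant forms. -/
lemma con_mem {Q : Matrix ι ι ℚ} (hQ : IsInv V Q) (hQp : IsEven p Q) (n : ℕ)
    {a : (Fin (n + 2) → ι) → ℚ} (ha : a ∈ C (n + 2)) : con (fun x y => Q x y) a ∈ C n := by
  obtain ⟨χi, hχi⟩ : ∃ χi, χ * χi = 1 :=
    ⟨χ⁻¹, Matrix.mul_nonsing_inv χ (isUnit_iff_ne_zero.2 hV.perfect)⟩
  have hχi' : χi * χ = 1 := mul_eq_one_comm.1 hχi
  let F : Matrix ι ι ℚ := χiᵀ * (Sg p * Q) * χi
  have hF : (fun u : Fin 2 → ι => F (u 0) (u 1)) ∈ V.Hdg (Fin 2) := by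
    refine mem_Hdg2 fun t ht => ?_
    have e1 := inv_inv' hV.hodge hχi ht
    have e2 : V.rot t * cx χiᵀ = cx χiᵀ * (V.rot t⁻¹)ᵀ := by
      have e3 := congrArg Matrix.transpose e1
      rw [Matrix.transpose_mul, Matrix.transpose_mul, Matrix.transpose_transpose, ← cx_tr] at e3
      calc V.rot t * cx χiᵀ = V.rot t * cx χiᵀ * ((V.rot t)ᵀ * (V.rot t⁻¹)ᵀ) := by
            rw [← Matrix.transpose_mul, rot_inv' V ht, Matrix.transpose_one, Matrix.mul_one]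
        _ = (V.rot t * (cx χiᵀ * (V.rot t)ᵀ)) * (V.rot t⁻¹)ᵀ := by
            simp only [Matrix.mul_assoc]
        _ = cx χiᵀ * (V.rot t⁻¹)ᵀ := by rw [e3]
    have e4 : cx χi * (V.rot t)ᵀ = V.rot t⁻¹ * cx χi := by
      calc cx χi * (V.rot t)ᵀ = V.rot t⁻¹ * V.rot t * (cx χi * (V.rot t)ᵀ) := by
            rw [rot_inv' V ht, Matrix.one_mul]
        _ = V.rot t⁻¹ * (V.rot t * cx χi * (V.rot t)ᵀ) := by simp only [Matrix.mul_assoc]
        _ = V.rot t⁻¹ * cx χi := by rw [e1]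
    have e5 : (V.rot t⁻¹)ᵀ * cx (Sg p * Q) * V.rot t⁻¹ = cx (Sg p * Q) := by
      have e6 := congrArg Matrix.transpose (Sg_rot hV t⁻¹)
      rw [Matrix.transpose_mul, Matrix.transpose_mul, ← cx_tr] at e6
      have e7 : (Sg p)ᵀ = Sg p := Matrix.diagonal_transpose _
      rw [e7] at e6
      rw [cx_mul, ← Matrix.mul_assoc, e6, Matrix.mul_assoc, Matrix.mul_assoc, ← Matrix.mul_assoc
        (V.rot t⁻¹)ᵀ, hQ _ (inv_ne_zero ht)]
    calc V.rot t * cx F * (V.rot t)ᵀ =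
        (V.rot t * cx χiᵀ) * cx (Sg p * Q) * (cx χi * (V.rot t)ᵀ) := by
          simp only [F, cx_mul, Matrix.mul_assoc]
      _ = cx χiᵀ * ((V.rot t⁻¹)ᵀ * cx (Sg p * Q) * V.rot t⁻¹) * cx χi := by
          rw [e2, e4]; simp only [Matrix.mul_assoc]
      _ = cx F := by rw [e5]; simp only [F, cx_mul, Matrix.mul_assoc]
  have h3 := hC.hom n _ a (h2 hF) ha
  have h4 : eul p χ (fun u : Fin 2 → ι => F (u 0) (u 1)) = fun x y => Q x y := by
    funext x y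
    have e1 : ∀ x' y', F x' y' * (-1 : ℚ) ^ ((p y' : ℕ) * (p x : ℕ)) * χ x' x * χ y' y =
        (-1 : ℚ) ^ ((p y : ℕ) * (p x : ℕ)) * (χᵀ x x' * F x' y' * χ y' y) := by
      intro x' y'
      by_cases h : p y' = p y
      · rw [h, Matrix.transpose_apply]; ring
      · rw [hV.par_χ y' y h]; ring
    have e2 : χᵀ * F * χ = Sg p * Q := by
      have e3 : χᵀ * χiᵀ = 1 := by rw [← Matrix.transpose_mul, hχi', Matrix.transpose_one]
      calc χᵀ * F * χ = (χᵀ * χiᵀ) * (Sg p * Q) * (χi * χ) := by simp only [F, Matrix.mul_assoc]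
        _ = Sg p * Q := by rw [e3, hχi', Matrix.one_mul, Matrix.mul_one]
    have e3 : ∑ x', ∑ y', χᵀ x x' * F x' y' * χ y' y = (χᵀ * F * χ) x y := by
      rw [Matrix.mul_apply, Finset.sum_comm]
      refine Finset.sum_congr rfl fun y' _ => ?_
      rw [Matrix.mul_apply, Finset.sum_mul]
    rw [eul]
    simp only [Matrix.cons_val_zero, Matrix.cons_val_one]
    rw [Finset.sum_congr rfl fun x' _ => Finset.sum_congr rfl fun y' _ => e1 x' y']
    simp only [← Finset.mul_sum]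
    rw [e3, e2, Sg, Matrix.diagonal_mul]
    by_cases h : p x = p y
    · rw [sg, h, ← mul_assoc]
      rcases Fin.exists_fin_two.1 ⟨p y, rfl⟩ with hy | hy <;> rw [hy] <;> norm_num
    · rw [hQp x y h, mul_zero, mul_zero]
  rw [h4] at h3
  exact h3

end NC

end Pool.Agent.N174.BPN
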