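import Pool.Agent.N174.BPN.Nc

/-!
# Signs and permutations
-/

set_option linter.unusedSectionVars false
set_option linter.unusedVariables false

namespace Pool.Agent.N174.BPN

open Matrix Pool.Agent.N996.BP

variable {ι : Type} [Fintype ι] [DecidableEq ι] {V : HodgeStr ι} {ψ : Matrix ι ι ℚ}
  {C : ∀ n : ℕ, Submodule ℚ ((Fin n → ι) → ℚ)} {p : ι → Fin 2} {χ : Matrix ι ι ℚ}
  (hV : IsNC V p χ) (hC : IsObjectClasses V p χ C) (h2 : V.Hdg (Fin 2) ≤ C 2)
  (hψ : V.IsPolarisation ψ) (hψp : IsEven p ψ)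

include hψ in
/-- The polarisation is invariant. -/
lemma isInv_pol : IsInv V ψ := by
  intro t ht
  rw [V.rot_eq, HodgeStr.op_form hψ, Matrix.mul_assoc, V.op_mul]
  have h1 : (fun k : ℤ => t ^ (-k) * t ^ k) = fun _ => 1 := by
    funext k
    rw [← zpow_add₀ ht, neg_add_cancel, zpow_zero]
  rw [h1, V.op_one, Matrix.mul_one]

include hψ in
lemma exists_inv : ∃ ψi : Matrix ι ι ℚ, ψ * ψi = 1 := by
  obtain ⟨H, -, -, hQ, -, -⟩ := HodgeStr.exists_hdata hψ
  have h1 : H.Qr * H.Qir = 1 := H.Qr_Qir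
  have h3 : ψᵀ * (Matrix.of fun i j => H.Qir (some i) (some j)) = 1 := by
    ext i j
    have h4 := congrFun (congrFun h1 (some i)) (some j)
    rw [hQ, Matrix.mul_apply, Fintype.sum_option, ob_sn, zero_mul, zero_add] at h4
    rw [Matrix.mul_apply]
    refine Eq.trans ?_ (h4.trans ?_)
    · rfl
    · simp [Matrix.one_apply]
  refine ⟨(Matrix.of fun i j => H.Qir (some i) (some j))ᵀ, ?_⟩
  have h5 := congrArg Matrix.transpose (mul_eq_one_comm.1 h3)
  rwa [Matrix.transpose_mul, Matrix.transpose_transpose, Matrix.transpose_one] at h5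

lemma ap_left {n : ℕ} (u : Fin n → ι) (x y : ι) (i : Fin n) :
    Fin.append u ![x, y] (Fin.castAdd 2 i) = u i := Fin.append_left _ _ _

lemma ap_0 {n : ℕ} (u : Fin n → ι) (x y : ι) : Fin.append u ![x, y] (Fin.natAdd n 0) = x := by
  rw [Fin.append_right]; rfl

lemma ap_1 {n : ℕ} (u : Fin n → ι) (x y : ι) : Fin.append u ![x, y] (Fin.natAdd n 1) = y := by
  rw [Fin.append_right]; rfl

include hV hC h2 hψ hψp in
/-- The parity operator at the last factor. -/
lemma sg_last (n : ℕ) {a : (Fin (n + 1) → ι) → ℚ} (ha : a ∈ C (n + 1)) :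
    (fun u => sg p (u (Fin.last n)) * a u) ∈ C (n + 1) := by
  obtain ⟨ψi, hψi⟩ := exists_inv hψ
  let K : Matrix ι ι ℚ := ψi * Sg p
  have hK : (fun u : Fin 2 → ι => K (u 0) (u 1)) ∈ V.Hdg (Fin 2) := by
    refine mem_Hdg2 fun t ht => ?_
    have e1 := inv_inv' (isInv_pol hψ) hψi ht
    have e6 := congrArg Matrix.transpose (Sg_rot hV t)
    rw [Matrix.transpose_mul, Matrix.transpose_mul, ← cx_tr] at e6
    have e7 : (Sg p)ᵀ = Sg p := Matrix.diagonal_transpose _
    rw [e7] at e6
    calc V.rot t * cx K * (V.rot t)ᵀ = V.rot t * cx ψi * (cx (Sg p) * (V.rot t)ᵀ) := by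
          simp only [K, cx_mul, Matrix.mul_assoc]
      _ = (V.rot t * cx ψi * (V.rot t)ᵀ) * cx (Sg p) := by
          rw [← e6]; simp only [Matrix.mul_assoc]
      _ = cx K := by rw [e1]; simp only [K, cx_mul]
  have h3 : ten a (fun u : Fin 2 → ι => K (u 0) (u 1)) ∈ C (n + 1 + 2) :=
    hC.box (n + 1) 2 a _ ha (h2 hK)
  let i₁ : Fin (n + 2) := Fin.last (n + 1)
  let i₀ : Fin (n + 2) := (Fin.last n).castSucc
  have h4 := hC.swap (n + 2) i₁ _ h3
  have h5 := hC.swap (n + 2) i₀ _ h4
  have h6 := con_mem hV hC h2 (isInv_pol hψ) hψp (n + 1) h5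
  convert h6 using 1
  funext u
  rw [con]
  -- the positions
  have q0 : i₀.castSucc = Fin.castAdd 2 (Fin.last n) := rfl
  have q1 : i₀.succ = Fin.natAdd (n + 1) (0 : Fin 2) := rfl
  have q1' : i₁.castSucc = Fin.natAdd (n + 1) (0 : Fin 2) := rfl
  have q2 : i₁.succ = Fin.natAdd (n + 1) (1 : Fin 2) := rfl
  have n01 : (Fin.castAdd 2 (Fin.last n) : Fin (n + 1 + 2)) ≠ Fin.natAdd (n + 1) 0 := by
    intro h; have := congrArg Fin.val h; simp at this
  have n02 : (Fin.castAdd 2 (Fin.last n) : Fin (n + 1 + 2)) ≠ Fin.natAdd (n + 1) 1 := by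
    intro h; have := congrArg Fin.val h; simp at this; omega
  have n12 : (Fin.natAdd (n + 1) (0 : Fin 2) : Fin (n + 1 + 2)) ≠ Fin.natAdd (n + 1) 1 := by
    intro h; have := congrArg Fin.val h; simp at this
  have key : ∀ x y : ι, ψ x y *
      ((-1) ^ ((p (Fin.append u ![x, y] i₀.castSucc) : ℕ) *
        (p (Fin.append u ![x, y] i₀.succ) : ℕ)) *
      ((-1) ^ ((p ((Fin.append u ![x, y] ∘ Equiv.swap i₀.castSucc i₀.succ) i₁.castSucc) : ℕ) *
        (p ((Fin.append u ![x, y] ∘ Equiv.swap i₀.castSucc i₀.succ) i₁.succ) : ℕ)) *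
      ten a (fun u : Fin 2 → ι => K (u 0) (u 1))
        ((Fin.append u ![x, y] ∘ Equiv.swap i₀.castSucc i₀.succ) ∘
          Equiv.swap i₁.castSucc i₁.succ))) =
      ψ x y * K y (u (Fin.last n)) * a (Function.update u (Fin.last n) x) := by
    intro x y
    rw [q0, q1, q1', q2]
    simp only [Function.comp_apply]
    have e1 : Equiv.swap (Fin.castAdd 2 (Fin.last n)) (Fin.natAdd (n + 1) (0 : Fin 2))
        (Fin.natAdd (n + 1) 0) = Fin.castAdd 2 (Fin.last n) := Equiv.swap_apply_right _ _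
    have e2 : Equiv.swap (Fin.castAdd 2 (Fin.last n)) (Fin.natAdd (n + 1) (0 : Fin 2))
        (Fin.natAdd (n + 1) 1) = Fin.natAdd (n + 1) 1 :=
      Equiv.swap_apply_of_ne_of_ne n02.symm n12.symm
    rw [e1, e2, ap_left, ap_0, ap_1]
    have e3 : ten a (fun u : Fin 2 → ι => K (u 0) (u 1))
        ((Fin.append u ![x, y] ∘
          Equiv.swap (Fin.castAdd 2 (Fin.last n)) (Fin.natAdd (n + 1) (0 : Fin 2))) ∘
          Equiv.swap (Fin.natAdd (n + 1) (0 : Fin 2)) (Fin.natAdd (n + 1) 1)) =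
        a (Function.update u (Fin.last n) x) * K y (u (Fin.last n)) := by
      rw [ten]
      congr 1
      · congr 1
        funext i
        simp only [Function.comp_apply]
        have f1 : (Fin.castAdd 2 i : Fin (n + 1 + 2)) ≠ Fin.natAdd (n + 1) 0 := by
          intro h; have h' := congrArg Fin.val h; simp at h'; omega
        have f2 : (Fin.castAdd 2 i : Fin (n + 1 + 2)) ≠ Fin.natAdd (n + 1) 1 := by
          intro h; have h' := congrArg Fin.val h; simp at h'; omega
        rw [Equiv.swap_apply_of_ne_of_ne f1 f2]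
        by_cases hi : i = Fin.last n
        · subst hi
          rw [Equiv.swap_apply_left, ap_0, Function.update_self]
        · have f3 : (Fin.castAdd 2 i : Fin (n + 1 + 2)) ≠ Fin.castAdd 2 (Fin.last n) := by
            intro h
            exact hi (Fin.castAdd_injective _ _ h)
          rw [Equiv.swap_apply_of_ne_of_ne f3 f1, ap_left, Function.update_of_ne hi]
      · simp only [Function.comp_apply]
        rw [Equiv.swap_apply_left, Equiv.swap_apply_right, e2, e1, ap_1, ap_left]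
    rw [e3]
    by_cases h : p x = p y
    · have e4 : (-1 : ℚ) ^ ((p (u (Fin.last n)) : ℕ) * (p x : ℕ)) *
          (-1) ^ ((p (u (Fin.last n)) : ℕ) * (p y : ℕ)) = 1 := by
        rw [h, ← pow_add, ← two_mul]
        exact Even.neg_one_pow (even_two_mul _)
      calc ψ x y * ((-1) ^ ((p (u (Fin.last n)) : ℕ) * (p x : ℕ)) *
            ((-1) ^ ((p (u (Fin.last n)) : ℕ) * (p y : ℕ)) *
              (a (Function.update u (Fin.last n) x) * K y (u (Fin.last n)))))
          = ((-1 : ℚ) ^ ((p (u (Fin.last n)) : ℕ) * (p x : ℕ)) *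
            (-1) ^ ((p (u (Fin.last n)) : ℕ) * (p y : ℕ))) *
            (ψ x y * K y (u (Fin.last n)) * a (Function.update u (Fin.last n) x)) := by ring
        _ = _ := by rw [e4, one_mul]
    · rw [hψp x y h]; ring
  rw [Finset.sum_congr rfl fun x _ => Finset.sum_congr rfl fun y _ => key x y]
  have e5 : ∀ x, ∑ y, ψ x y * K y (u (Fin.last n)) * a (Function.update u (Fin.last n) x) =
      (ψ * K) x (u (Fin.last n)) * a (Function.update u (Fin.last n) x) := by
    intro x
    rw [← Finset.sum_mul, Matrix.mul_apply]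
  rw [Finset.sum_congr rfl fun x _ => e5 x]
  have e6 : ψ * K = Sg p := by
    rw [← Matrix.mul_assoc, hψi, Matrix.one_mul]
  rw [e6, Finset.sum_eq_single (u (Fin.last n))]
  · rw [Sg, Matrix.diagonal_apply_eq, Function.update_eq_self]
  · intro x _ hx
    rw [Sg, Matrix.diagonal_apply_ne _ hx, zero_mul]
  · intro h; exact absurd (Finset.mem_univ _) h

include hV hC h2 hψ hψp in
/-- The parity operators. -/
lemma sg_mem (n : ℕ) (j : Fin (n + 1)) : ∀ a : (Fin (n + 1) → ι) → ℚ, a ∈ C (n + 1) →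
    (fun u => sg p (u j) * a u) ∈ C (n + 1) := by
  induction j using Fin.reverseInduction with
  | last => exact fun a ha => sg_last hV hC h2 hψ hψp n ha
  | cast i ih =>
    intro a ha
    have h3 := hC.swap n i _ ha
    have h4 := ih _ h3
    have h5 := hC.swap n i _ h4
    convert h5 using 1
    funext u
    simp only [Function.comp_apply, Equiv.swap_apply_left, Equiv.swap_apply_right]
    have e1 : (u ∘ Equiv.swap i.castSucc i.succ) ∘ Equiv.swap i.castSucc i.succ = u := by
      funext k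
      simp
    rw [e1]
    have e2 := ep_sq (p := p) (u i.castSucc) (u i.succ)
    calc sg p (u i.castSucc) * a u =
        ((-1 : ℚ) ^ ((p (u i.castSucc) : ℕ) * (p (u i.succ) : ℕ)) *
          (-1) ^ ((p (u i.succ) : ℕ) * (p (u i.castSucc) : ℕ))) * (sg p (u i.castSucc) * a u) := by
          rw [e2, one_mul]
      _ = _ := by ring

include hV hC h2 hψ hψp in
/-- Permutations of neighbouring factors without signs. -/
lemma swap_mem (n : ℕ) (i : Fin n) {a : (Fin (n + 1) → ι) → ℚ} (ha : a ∈ C (n + 1)) :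
    (fun u => a (u ∘ Equiv.swap i.castSucc i.succ)) ∈ C (n + 1) := by
  have hs := sg_mem hV hC h2 hψ hψp n
  have h3 := hC.swap n i _ ha
  have h4 := hs i.castSucc _ h3
  have h5 := hs i.succ _ h3
  have h6 := hs i.castSucc _ h5
  have h7 := Submodule.smul_mem _ (1 / 2 : ℚ)
    (Submodule.sub_mem _ (Submodule.add_mem _ (Submodule.add_mem _ h3 h4) h5) h6)
  convert h7 using 1
  funext u
  simp only [Pi.smul_apply, Pi.sub_apply, Pi.add_apply, smul_eq_mul]
  have e1 := ep_eq (p := p) (u i.castSucc) (u i.succ)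
  have e2 : (-1 : ℚ) ^ ((p (u i.castSucc) : ℕ) * (p (u i.succ) : ℕ)) *
      (-1) ^ ((p (u i.castSucc) : ℕ) * (p (u i.succ) : ℕ)) = 1 := by
    rw [← pow_add, ← two_mul]
    exact Even.neg_one_pow (even_two_mul _)
  obtain ⟨E, hE⟩ : ∃ E : ℚ, E = (-1 : ℚ) ^ ((p (u i.castSucc) : ℕ) * (p (u i.succ) : ℕ)) :=
    ⟨_, rfl⟩
  rw [← hE] at e1 e2 ⊢
  obtain ⟨A, hA⟩ : ∃ A : ℚ, A = a (u ∘ Equiv.swap i.castSucc i.succ) := ⟨_, rfl⟩
  rw [← hA]
  calc A = E * E * A := by rw [e2, one_mul]
    _ = (1 / 2 * (1 + sg p (u i.castSucc) + sg p (u i.succ) -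
        sg p (u i.castSucc) * sg p (u i.succ))) * (E * A) := by rw [← e1]; ring
    _ = _ := by ring

include hV hC h2 hψ hψp in
/-- Permutations without signs. -/
lemma perm_mem (n : ℕ) (σ : Equiv.Perm (Fin n)) (a : (Fin n → ι) → ℚ) (ha : a ∈ C n) :
    (fun u => a (u ∘ σ)) ∈ C n := by
  rcases n with _ | n
  · rw [hC.one]; trivial
  · have hσ : σ ∈ Submonoid.closure (Set.range fun i : Fin n => Equiv.swap i.castSucc i.succ) := by
      rw [Equiv.Perm.mclosure_swap_castSucc_succ]; trivial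
    revert a
    induction hσ using Submonoid.closure_induction with
    | mem x hx =>
      obtain ⟨i, rfl⟩ := hx
      exact fun a ha => swap_mem hV hC h2 hψ hψp n i ha
    | one => exact fun a ha => ha
    | mul x y _ _ hx hy =>
      intro a ha
      have h3 := hx _ (hy a ha)
      exact h3

include hV hC h2 hψ hψp in
/-- The classes of objects form a tensor family. -/
theorem tensorFamily : IsTensorFamily V ψ C where
  hodge := hC.hodge
  one := hC.one
  tens := hC.box
  perm := perm_mem hV hC h2 hψ hψp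
  contr n a ha := con_mem hV hC h2 (isInv_pol hψ) hψp n ha

end Pool.Agent.N174.BPN
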