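import Pool.Agent.N174.BPN.Defs
import Pool.Agent.N996.BP.RFam

/-!
# Adding the unit object: block matrices and arrays
-/

set_option linter.unusedSectionVars false

namespace Pool.Agent.N174.BPN

open Matrix ComplexConjugate Pool.Agent.N996.BP

variable {ι : Type} [Fintype ι] [DecidableEq ι]

/-- Block matrices. -/
def ob {R : Type*} [Zero R] (c : R) (M : Matrix ι ι R) : Matrix (Option ι) (Option ι) R :=
  Matrix.of fun i j => match i, j with
    | none, none => c
    | some i, some j => M i j
    | none, some _ => 0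
    | some _, none => 0

section
variable {R : Type*} [Zero R] (c : R) (M : Matrix ι ι R)
@[simp] lemma ob_nn : ob c M none none = c := rfl
@[simp] lemma ob_ss (i j : ι) : ob c M (some i) (some j) = M i j := rfl
@[simp] lemma ob_ns (j : ι) : ob c M none (some j) = 0 := rfl
@[simp] lemma ob_sn (i : ι) : ob c M (some i) none = 0 := rfl
end

lemma ext_opt {R : Type*} {M N : Matrix (Option ι) (Option ι) R} (h1 : M none none = N none none)
    (h2 : ∀ j, M none (some j) = N none (some j)) (h3 : ∀ i, M (some i) none = N (some i) none)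
    (h4 : ∀ i j, M (some i) (some j) = N (some i) (some j)) : M = N := by
  ext i j
  rcases i with _ | i <;> rcases j with _ | j
  · exact h1
  · exact h2 j
  · exact h3 i
  · exact h4 i j

lemma ob_mul {R : Type*} [CommRing R] (c d : R) (M N : Matrix ι ι R) :
    ob c M * ob d N = ob (c * d) (M * N) := by
  refine ext_opt ?_ (fun j => ?_) (fun i => ?_) (fun i j => ?_) <;>
    simp [Matrix.mul_apply, Fintype.sum_option]

lemma ob_transpose {R : Type*} [Zero R] (c : R) (M : Matrix ι ι R) : (ob c M)ᵀ = ob c Mᵀ :=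
  ext_opt rfl (fun _ => rfl) (fun _ => rfl) fun _ _ => rfl

lemma ob_map {R R' : Type*} [Zero R] [Zero R'] (f : R → R') (hf : f 0 = 0) (c : R)
    (M : Matrix ι ι R) : (ob c M).map f = ob (f c) (M.map f) :=
  ext_opt rfl (fun _ => hf) (fun _ => hf) fun _ _ => rfl

lemma ob_one {R : Type*} [CommRing R] : ob (1 : R) (1 : Matrix ι ι R) = 1 := by
  refine ext_opt ?_ (fun j => ?_) (fun i => ?_) (fun i j => ?_)
  · simp
  · simp
  · simp
  · simp [Matrix.one_apply]

lemma ob_zero {R : Type*} [CommRing R] : ob (0 : R) (0 : Matrix ι ι R) = 0 :=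
  ext_opt rfl (fun _ => rfl) (fun _ => rfl) fun _ _ => rfl

lemma ob_smul {R : Type*} [CommRing R] (r c : R) (M : Matrix ι ι R) :
    r • ob c M = ob (r * c) (r • M) := by
  refine ext_opt ?_ (fun j => ?_) (fun i => ?_) (fun i j => ?_) <;> simp

lemma ob_sum {R : Type*} [CommRing R] {α : Type*} (s : Finset α) (c : α → R)
    (M : α → Matrix ι ι R) : ∑ k ∈ s, ob (c k) (M k) = ob (∑ k ∈ s, c k) (∑ k ∈ s, M k) := by
  refine ext_opt ?_ (fun j => ?_) (fun i => ?_) (fun i j => ?_) <;> simp [Matrix.sum_apply]

lemma ob_inj {R : Type*} [Zero R] {c d : R} {M N : Matrix ι ι R} (h : ob c M = ob d N) :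
    c = d ∧ M = N := by
  refine ⟨congrFun (congrFun h none) none, ?_⟩
  ext i j
  exact congrFun (congrFun h (some i)) (some j)

/-- Words with the empty letter outside the image of `j`. -/
noncomputable def xt {κ l : Type} (j : κ → l) (u : κ → ι) : l → Option ι :=
  Function.extend j (fun k => some (u k)) fun _ => none

variable {κ l : Type}

lemma xt_apply {j : κ → l} (hj : Function.Injective j) (u : κ → ι) (k : κ) :
    xt j u (j k) = some (u k) := hj.extend_apply _ _ k

lemma xt_apply' {j : κ → l} (u : κ → ι) {m : l} (hm : ∀ k, j k ≠ m) : xt j u m = none :=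
  Function.extend_apply' _ _ _ fun ⟨k, hk⟩ => hm k hk

/-- A criterion for words. -/
lemma xt_eq {j : κ → l} (hj : Function.Injective j) {u : κ → ι} {w : l → Option ι}
    (h1 : ∀ k, w (j k) = some (u k)) (h2 : ∀ m, (∀ k, j k ≠ m) → w m = none) : xt j u = w := by
  funext m
  by_cases h : ∃ k, j k = m
  · obtain ⟨k, rfl⟩ := h
    rw [xt_apply hj, h1]
  · have h3 : ∀ k, j k ≠ m := fun k hk => h ⟨k, hk⟩
    rw [xt_apply' u h3, h2 m h3]

lemma xt_inj {j : κ → l} (hj : Function.Injective j) :
    Function.Injective (xt j : (κ → ι) → l → Option ι) := by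
  intro u v h
  funext k
  have h1 := congrFun h (j k)
  rw [xt_apply hj, xt_apply hj] at h1
  exact Option.some_injective _ h1

/-- All words have this form. -/
lemma exists_xt (w : l → Option ι) : ∃ (κ : Type) (j : κ → l) (u : κ → ι),
    Function.Injective j ∧ xt j u = w := by
  refine ⟨{m : l // w m ≠ none}, Subtype.val, fun m => (w m.1).get (by
    rw [← Option.ne_none_iff_isSome]; exact m.2), Subtype.val_injective, ?_⟩
  refine xt_eq Subtype.val_injective (fun k => ?_) fun m hm => ?_
  · rw [Option.some_get]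
  · by_contra h
    exact hm ⟨m, h⟩ rfl

/-- The restriction of an array to the words with the empty letter outside of the image of `j`. -/
noncomputable def rs {R : Type*} (j : κ → l) (a : (l → Option ι) → R) : (κ → ι) → R :=
  fun u => a (xt j u)

/-- The group acts on the restriction. -/
lemma kp_xt [Fintype κ] [Fintype l] [DecidableEq κ] [DecidableEq l] {j : κ → l}
    (hj : Function.Injective j) (g : Matrix ι ι ℂ) (a : (l → Option ι) → ℂ) (u : κ → ι) :
    (kp l (ob 1 g) *ᵥ a) (xt j u) = (kp κ g *ᵥ rs j a) u := by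
  rw [Matrix.mulVec, Matrix.mulVec, dotProduct, dotProduct]
  symm
  refine Fintype.sum_of_injective (xt j) (xt_inj hj) _ _ (fun w hw => ?_) fun v => ?_
  · rw [kp_apply]
    by_cases h : ∀ m : l, ob 1 g (xt j u m) (w m) ≠ 0
    · exfalso
      refine hw ?_
      have h1 : ∀ k, ∃ x, w (j k) = some x := by
        intro k
        have h2 := h (j k)
        rw [xt_apply hj] at h2
        rcases h3 : w (j k) with _ | x
        · rw [h3, ob_sn] at h2
          exact absurd rfl h2
        · exact ⟨x, rfl⟩
      choose v hv using h1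
      refine ⟨v, xt_eq hj hv fun m hm => ?_⟩
      have h2 := h m
      rw [xt_apply' u hm] at h2
      rcases h3 : w m with _ | x
      · rfl
      · rw [h3, ob_ns] at h2
        exact absurd rfl h2
    · push Not at h
      obtain ⟨m, hm⟩ := h
      rw [Finset.prod_eq_zero (Finset.mem_univ m) hm, zero_mul]
  · rw [kp_apply, kp_apply, rs]
    congr 1
    refine Fintype.prod_of_injective j hj _ _ (fun m hm => ?_) fun k => ?_
    · have h1 : ∀ k, j k ≠ m := fun k hk => hm ⟨k, hk⟩
      rw [xt_apply' u h1, xt_apply' v h1, ob_nn]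
    · rw [xt_apply hj, xt_apply hj, ob_ss]

end Pool.Agent.N174.BPN
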